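import Pool.Agent.E8helper66.ND.Lev
import Pool.Agent.Y771.NF.Delta
import Pool.Agent.W388.TW.XDir
import Pool.Agent.W482.TW.Id
import Pool.Agent.H128R3.GJC
import Pool.Agent.Y22.RX3

/-!
# The discriminant
-/

set_option autoImplicit false

open UpperHalfPlane hiding I
open MeasureTheory Filter Topology Set Complex
open Pool.Agent.W97.TW (deltaForm)
open Pool.Agent.Y771.NF (newf_delta frm_delta heckeSeq p_rs p_sel lm)
open Pool.Agent.E8helper66.BM (Rg RgA rg_gt rg_re_im)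

namespace Pool.Agent.E8helper66.ND

/-- the normalised coefficients -/
noncomputable abbrev ld : ℕ → ℝ := W388.lamf deltaForm

/-- the completed function -/
noncomputable def Ld (s : ℂ) : ℂ :=
  mellin (fun y : ℝ => ((Pool.Agent.H128R3.JD.DelK.Dl y : ℝ) : ℂ)) s

theorem p_dir : W388.StDir := W388.XDir.t_dir Pool.Agent.W482.TW.t_id1 p_sel

theorem Ld_mellin (s : ℂ) :
    Ld s = mellin (fun y : ℝ => ((Pool.Agent.H128R3.JD.DelK.Dl y : ℝ) : ℂ)) s := rfl

/-- the L-function, centre `1/2` -/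
noncomputable def Fd (s : ℂ) : ℂ :=
  Ld (s + 11 / 2) * (((2 * Real.pi : ℝ) : ℂ) ^ (s + 11 / 2) * (Complex.Gamma (s + 11 / 2))⁻¹)

lemma tp_ne : (((2 * Real.pi : ℝ) : ℂ)) ≠ 0 := by
  have := Real.pi_pos
  exact_mod_cast (by positivity : (2 * Real.pi : ℝ) ≠ 0)

lemma Fd_diff : Differentiable ℂ Fd := by
  unfold Fd
  have h1 : Differentiable ℂ Ld := by
    obtain ⟨B, hB⟩ := Pool.Agent.H128R3.JD.DelHk.isHk
    exact Pool.Agent.H128R3.GJB.mellin_diff hB
  have h2 : Differentiable ℂ fun s : ℂ => s + 11 / 2 := by fun_prop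
  have h3 : Differentiable ℂ fun s : ℂ => (((2 * Real.pi : ℝ) : ℂ)) ^ s := fun s =>
    (differentiableAt_id).const_cpow (Or.inl tp_ne)
  exact (h1.comp h2).mul ((h3.comp h2).mul (Complex.differentiable_one_div_Gamma.comp h2))

lemma Fd_zero {s : ℂ} (hs : -(11 / 2) < s.re) : Fd s = 0 ↔ Ld (s + 11 / 2) = 0 := by
  unfold Fd
  have hre : (s + 11 / 2 : ℂ).re = s.re + 11 / 2 := by
    norm_num
  have h1 : (Complex.Gamma (s + 11 / 2))⁻¹ ≠ 0 :=
    inv_ne_zero (Complex.Gamma_ne_zero_of_re_pos (by rw [hre]; linarith))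
  have h2 : (((2 * Real.pi : ℝ) : ℂ)) ^ (s + 11 / 2) ≠ 0 := by
    rw [Complex.cpow_def_of_ne_zero tp_ne]
    exact Complex.exp_ne_zero _
  constructor
  · intro h
    rcases mul_eq_zero.1 h with h | h
    · exact h
    · exact absurd h (mul_ne_zero h2 h1)
  · intro h
    rw [h, zero_mul]

lemma chi (n : ℕ) : (1 : DirichletCharacter ℂ 1) (n : ZMod 1) = 1 := by
  have : (n : ZMod 1) = 1 := Subsingleton.elim _ _
  rw [this, map_one]

lemma Fd_ser {s : ℂ} (hs : 2 < s.re)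
    (hsum : Summable fun n : ℕ => (ld n : ℂ) * (n : ℂ) ^ (-s)) :
    Fd s = ∑' n : ℕ, (ld n : ℂ) * (n : ℂ) ^ (-s) := by
  have hre : (s + 11 / 2 : ℂ).re = s.re + 11 / 2 := by
    norm_num
  obtain ⟨B, hB⟩ := Pool.Agent.H128R3.JD.DelHk.isHk
  have h1 := Pool.Agent.H471R3.GJ.dir (Pool.Agent.H128R3.JD.DelHk.hk B) hB (s + 11 / 2)
    (by rw [hre]; linarith) (by
      show (6 : ℝ) + 1 < ((1 : ℕ) : ℝ) * (s + 11 / 2 : ℂ).re
      rw [hre, Nat.cast_one, one_mul]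
      linarith)
  have h1' : Ld (s + 11 / 2) = (((1 / (2 * Real.pi) : ℝ) : ℂ)) ^ (s + 11 / 2) *
      Complex.Gamma (s + 11 / 2) * ∑' m : ℕ, ((((qExpansion 1 deltaForm).coeff (m + 1)).re : ℝ) : ℂ) *
        ((m + 1 : ℕ) : ℂ) ^ (-((1 : ℕ) : ℂ) * (s + 11 / 2)) := h1
  have h1'' : Ld (s + 11 / 2) = (((1 / (2 * Real.pi) : ℝ) : ℂ)) ^ (s + 11 / 2) *
      Complex.Gamma (s + 11 / 2) * ∑' m : ℕ, (qExpansion 1 deltaForm).coeff (m + 1) *
        ((m + 1 : ℕ) : ℂ) ^ (-(s + 11 / 2)) := by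
    rw [h1']
    congr 1
    refine tsum_congr fun m => ?_
    rw [← Pool.Agent.Y771.NF.coeff_real (N := 1) (k := 12) newf_delta (m + 1)]
    congr 2
    push_cast
    ring
  have h2 : Complex.Gamma (s + 11 / 2) ≠ 0 :=
    Complex.Gamma_ne_zero_of_re_pos (by rw [hre]; linarith)
  have h3 : (((1 / (2 * Real.pi) : ℝ) : ℂ)) ^ (s + 11 / 2) *
      (((2 * Real.pi : ℝ) : ℂ)) ^ (s + 11 / 2) = 1 := by
    have hpi := Real.pi_pos
    rw [← Complex.mul_cpow_ofReal_nonneg (by positivity) (by positivity), ← Complex.ofReal_mul]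
    have : 1 / (2 * Real.pi) * (2 * Real.pi) = 1 := by
      field_simp
    rw [this, Complex.ofReal_one, Complex.one_cpow]
  have h4 : Fd s = ∑' n : ℕ, (qExpansion 1 deltaForm).coeff (n + 1) *
      ((n + 1 : ℕ) : ℂ) ^ (-(s + 11 / 2)) := by
    unfold Fd
    rw [h1'']
    set S := ∑' n : ℕ, (qExpansion 1 deltaForm).coeff (n + 1) *
      ((n + 1 : ℕ) : ℂ) ^ (-(s + 11 / 2)) with hS
    calc _ = ((((1 / (2 * Real.pi) : ℝ) : ℂ)) ^ (s + 11 / 2) *
        (((2 * Real.pi : ℝ) : ℂ)) ^ (s + 11 / 2)) *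
        (Complex.Gamma (s + 11 / 2) * (Complex.Gamma (s + 11 / 2))⁻¹) * S := by ring
      _ = S := by rw [h3, mul_inv_cancel₀ h2, one_mul, one_mul]
  rw [h4, hsum.tsum_eq_zero_add]
  have h50 : ld 0 = 0 := (heckeSeq (N := 1) (k := 12) newf_delta).zero
  have h5 : ((ld 0 : ℝ) : ℂ) = 0 := by
    rw [h50]
    simp
  rw [h5, zero_mul, zero_add]
  refine tsum_congr fun n => ?_
  have hn : (0 : ℝ) < ((n + 1 : ℕ) : ℝ) := by positivity
  have hnc : (((n + 1 : ℕ) : ℝ) : ℂ) ≠ 0 := by exact_mod_cast hn.ne'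
  have h6 : (qExpansion 1 deltaForm).coeff (n + 1) =
      (ld (n + 1) : ℂ) * (((n + 1 : ℕ) : ℝ) : ℂ) ^ ((11 / 2 : ℝ) : ℂ) := by
    rw [Pool.Agent.Y771.NF.coeff_real (N := 1) (k := 12) newf_delta (n + 1), ← Complex.ofReal_cpow hn.le, ← Complex.ofReal_mul]
    congr 1
    unfold ld W388.lamf
    have e : (((12 : ℤ) : ℝ) - 1) / 2 = 11 / 2 := by norm_num
    rw [e]
    have : ((n + 1 : ℕ) : ℝ) ^ (11 / 2 : ℝ) ≠ 0 := (Real.rpow_pos_of_pos hn _).ne'
    field_simp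
  rw [h6]
  have h7 : (((n + 1 : ℕ) : ℕ) : ℂ) = (((n + 1 : ℕ) : ℝ) : ℂ) := by push_cast; rfl
  rw [h7, mul_assoc, ← Complex.cpow_add _ _ hnc]
  congr 2
  push_cast
  ring

/-- **The discriminant is an instance.** -/
theorem lf_delta : ∃ th : ℝ, LF ld th Fd := by
  have hH := heckeSeq (N := 1) (k := 12) newf_delta
  have hR := p_rs 1 12 (by norm_num) deltaForm 1 newf_delta
  obtain ⟨th, C, h0, h1, hb⟩ := frm_delta.ram
  obtain ⟨A, -, -, -, hd⟩ := p_dir 1 one_pos ld hH hR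
  set F₀ : ℂ → ℂ := fun s => ∑' n : ℕ, (1 : DirichletCharacter ℂ 1) (n : ZMod 1) * (ld n : ℂ) *
    (n : ℂ) ^ (-s) with hF₀
  obtain ⟨hsum, -, -, -, -, hprod⟩ := hd 1 1 F₀ fun s _ => rfl
  have hsum' : ∀ s : ℂ, 1 < s.re → Summable fun n : ℕ => (ld n : ℂ) * (n : ℂ) ^ (-s) := by
    intro s hs
    have h2 := (hsum s hs).of_norm
    refine h2.congr fun n => ?_
    rw [chi, one_mul]
  have hF : ∀ s : ℂ, 2 < s.re → Fd s = F₀ s := by
    intro s hs
    rw [Fd_ser hs (hsum' s (by linarith)), hF₀]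
    refine tsum_congr fun n => ?_
    rw [chi, one_mul]
  have hC : 0 ≤ C := by
    have h2 := hb 1 le_rfl
    rw [Nat.cast_one, Real.one_rpow, mul_one] at h2
    exact (norm_nonneg _).trans h2
  refine ⟨th, ⟨hH.one, fun p j hp => ?_, h0, h1, ⟨C, hC, fun n hn => ?_⟩, hR.1, Fd_diff,
    fun s hs => ?_, ?_⟩⟩
  · have h2 := hH.pow p j hp
    rwa [if_neg fun h => hp.one_lt.ne' (Nat.dvd_one.1 h)] at h2
  · have h2 := hb n hn
    unfold lm at h2
    rwa [Complex.norm_real, Real.norm_eq_abs] at h2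
  · rw [hF s hs]
    have h2 := hprod s (by linarith)
    convert h2 using 1
    funext p
    rw [chi, one_mul, if_neg fun h => p.2.one_lt.ne' (Nat.dvd_one.1 h), one_pow, one_mul]
  · rw [Ne, Fd_zero (by norm_num)]
    obtain ⟨B, -, -, hB, -⟩ := Pool.Agent.Y22.RX.ev_delta
    have h2 := Pool.Agent.Y22.RX.real_ne hB rfl (fun y hy => Pool.Agent.H128R3.JD.DelK.Dl_pos hy) 0
    intro h3
    apply h2
    rw [Ld_mellin] at h3
    show mellin (fun y : ℝ => ((Pool.Agent.H128R3.JD.DelK.Dl y : ℝ) : ℂ))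
      ((((12 : ℝ) / 2 : ℝ) : ℂ) + ((0 : ℝ) : ℂ)) = 0
    rw [← h3]
    congr 1
    push_cast
    norm_num

lemma Fd_real (x : ℝ) (hx : 1 / 2 < x) : Fd x ≠ 0 := by
  rw [Ne, Fd_zero (by rw [Complex.ofReal_re]; linarith)]
  obtain ⟨B, -, -, hB, -⟩ := Pool.Agent.Y22.RX.ev_delta
  have h2 := Pool.Agent.Y22.RX.real_ne hB rfl (fun y hy => Pool.Agent.H128R3.JD.DelK.Dl_pos hy)
    (x - 1 / 2)
  intro h3
  apply h2
  rw [Ld_mellin] at h3
  show mellin (fun y : ℝ => ((Pool.Agent.H128R3.JD.DelK.Dl y : ℝ) : ℂ))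
    ((((12 : ℝ) / 2 : ℝ) : ℂ) + ((x - 1 / 2 : ℝ) : ℂ)) = 0
  rw [← h3]
  congr 1
  push_cast
  ring

theorem sel_delta : W388.SelE (fun n => (W388.cS 1 ld n : ℂ)) :=
  (p_sel 1 one_pos ld (heckeSeq (N := 1) (k := 12) newf_delta)
    (p_rs 1 12 (by norm_num) deltaForm 1 newf_delta)).1

/-- the functional equation -/
lemma Ld_fe (s : ℂ) : Ld (12 - s) = Ld s := by
  obtain ⟨B, hB⟩ := Pool.Agent.H128R3.JD.DelHk.isHk
  have h := Pool.Agent.H128R3.GJB.mellin_fe hB s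
  have h0 : Pool.Agent.H128R3.GJB.pr (Pool.Agent.H128R3.JD.DelHk.hk B) = 0 := if_pos rfl
  rw [h0, pow_zero, one_mul] at h
  have h1 : ((((12 : ℝ) : ℝ) : ℂ)) = 12 := by push_cast; rfl
  have h2 : mellin (fun y : ℝ => ((Pool.Agent.H128R3.JD.DelK.Dl y : ℝ) : ℂ)) (((12 : ℝ) : ℂ) - s) =
      mellin (fun y : ℝ => ((Pool.Agent.H128R3.JD.DelK.Dl y : ℝ) : ℂ)) s := h
  rw [h1] at h2
  exact h2

/-- the zeros in terms of the Xi function -/
theorem zeros_iff {κ θ : ℝ} (hκ : 0 < κ) (hθ : 0 ≤ θ) :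
    (∀ s ∈ RgA κ θ, Fd (s - 1 / 2) ≠ 0) ↔ ∀ z : ℂ, Ld (6 + I * z) = 0 →
      ¬ (κ * |z.re| < Real.pi / 2 ∧ 1 + θ < Real.exp (κ * |z.im|) * Real.cos (κ * z.re)) := by
  have hgt : ∀ s ∈ RgA κ θ, 1 < s.re := fun s hs => rg_gt hκ ⟨hs.1, by linarith [hs.2]⟩
  have key : ∀ s : ℂ, 1 < s.re → (Fd (s - 1 / 2) = 0 ↔ Ld (s + 5) = 0) := by
    intro s hs
    rw [Fd_zero (by
      have : (s - 1 / 2 : ℂ).re = s.re - 1 / 2 := by norm_num
      rw [this]
      linarith)]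
    have : s - 1 / 2 + 11 / 2 = s + 5 := by ring
    rw [this]
  constructor
  · intro h
    -- the lower half plane
    have h1 : ∀ z : ℂ, z.im ≤ 0 → Ld (6 + I * z) = 0 →
        ¬ (κ * |z.re| < Real.pi / 2 ∧ 1 + θ < Real.exp (κ * |z.im|) * Real.cos (κ * z.re)) := by
      rintro z hz h0 ⟨h2, h3⟩
      have hs : (1 + I * z) ∈ RgA κ θ := by
        refine ⟨?_, ?_⟩
        · have e : (1 + I * z : ℂ).im = z.re := by simp
          rw [e, abs_mul, abs_of_pos hκ]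
          exact h2
        · rw [rg_re_im]
          have e1 : (1 + I * z : ℂ).im = z.re := by simp
          have e2 : (1 + I * z : ℂ).re - 1 = |z.im| := by
            rw [abs_of_nonpos hz]
            simp
          rw [e1, e2]
          exact h3
      refine h _ hs ((key _ (hgt _ hs)).2 ?_)
      have e : 1 + I * z + 5 = 6 + I * z := by ring
      rw [e]
      exact h0
    intro z h0
    rcases le_total z.im 0 with hz | hz
    · exact h1 z hz h0
    · have h2 := h1 (-z) (by rw [Complex.neg_im]; linarith) (by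
        rw [← Ld_fe]
        have e : 12 - (6 + I * -z) = 6 + I * z := by ring
        rw [e]
        exact h0)
      rwa [Complex.neg_re, Complex.neg_im, abs_neg, abs_neg, mul_neg, Real.cos_neg] at h2
  · intro h s hs h0
    have hs1 := hgt s hs
    rw [key s hs1] at h0
    have e0 : 6 + I * (-I * (s - 1)) = s + 5 := by
      have := Complex.I_mul_I
      linear_combination (-(s - 1)) * this
    refine h (-I * (s - 1)) (by rw [e0]; exact h0) ⟨?_, ?_⟩
    · have e : (-I * (s - 1) : ℂ).re = s.im := by simp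
      rw [e]
      have h1 := hs.1
      rwa [abs_mul, abs_of_pos hκ] at h1
    · have e1 : (-I * (s - 1) : ℂ).re = s.im := by simp
      have e2 : |(-I * (s - 1) : ℂ).im| = s.re - 1 := by
        have : (-I * (s - 1) : ℂ).im = -(s.re - 1) := by simp
        rw [this, abs_neg, abs_of_pos (by linarith)]
      rw [e1, e2]
      have h2 := hs.2
      rwa [rg_re_im] at h2

end Pool.Agent.E8helper66.ND
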