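import Pool.Agent.E8helper66.ND.Half

/-!
# The half sum of the squares
-/

set_option autoImplicit false

open Filter Topology Set
open Pool.Agent.E8helper66.ML (ps)

namespace Pool.Agent.E8helper66.ND

variable {lam : ℕ → ℝ} {th : ℝ} {F : ℂ → ℂ}

lemma pow_inj (m : ℕ) : Function.Injective fun x : Nat.Primes × ℕ => (x.1 : ℕ) ^ (x.2 + (m + 1)) := by
  rintro ⟨p, i⟩ ⟨q, j⟩ h
  simp only at h
  have h1 := Nat.Prime.pow_minFac p.2 (show i + (m + 1) ≠ 0 by omega)
  have h2 := Nat.Prime.pow_minFac q.2 (show j + (m + 1) ≠ 0 by omega)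
  rw [h] at h1
  have h3 : (p : ℕ) = q := h1.symm.trans h2
  have h4 : p = q := Subtype.ext h3
  subst h4
  have h5 := Nat.pow_right_injective p.2.two_le h
  have h6 : i = j := by omega
  rw [h6]

/-- the weight `(λ(p)² + 3) p^{-1-σ}` -/
lemma LF.sum_w (H : LF lam th F) {σ : ℝ} (hσ : 0 < σ) :
    Summable fun p : Nat.Primes => (lam p ^ 2 + 3) * ((p : ℕ) : ℝ) ^ (-(1 + σ)) := by
  have h1 : Summable fun p : Nat.Primes => lam p ^ 2 * ((p : ℕ) : ℝ) ^ (-(1 + σ)) :=
    (H.rs σ hσ).comp_injective (i := fun p : Nat.Primes => (p : ℕ)) Subtype.val_injective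
  have h2 : Summable fun p : Nat.Primes => 3 * ((p : ℕ) : ℝ) ^ (-(1 + σ)) :=
    (Nat.Primes.summable_rpow.2 (by linarith)).mul_left 3
  refine (h1.add h2).congr fun p => ?_
  ring

/-- the decay of the powers of the roots -/
lemma LF.decay (H : LF lam th F) (p : Nat.Primes) (j : ℕ) :
    (((p : ℕ) : ℝ) ^ th * Tp p) ^ (j + 1) ≤
      ((p : ℕ) : ℝ) ^ (-(1 / 2 - th)) * ((2 : ℝ) ^ (-(1 / 2 - th))) ^ j := by
  have h0 : 0 ≤ ((p : ℕ) : ℝ) ^ th * Tp p :=
    mul_nonneg (Real.rpow_nonneg (p0 p).le _) (Tp_pos p).le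
  rw [pow_succ', ← H.yT p]
  exact mul_le_mul_of_nonneg_left (pow_le_pow_left₀ h0 (H.yT_le p) j) h0

/-- the higher prime powers in the mean square -/
noncomputable def W2 (lam : ℕ → ℝ) (x : Nat.Primes × ℕ) : ℝ :=
  ps (lam x.1) 1 (x.2 + 2) ^ 2 / ((x.2 + 2 : ℕ) * ((x.1 : ℕ) : ℝ) ^ (x.2 + 2))

lemma LF.W2_sum (H : LF lam th F) : Summable (W2 lam) := by
  have hth := H.th1
  have hρ := H.rho_lt
  have hρ0 : (0 : ℝ) ≤ (2 : ℝ) ^ (-(1 / 2 - th)) := by positivity
  have h1 := H.sum_w (show 0 < 1 / 2 - th by linarith)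
  have h2 : Summable fun j : ℕ => ((2 : ℝ) ^ (-(1 / 2 - th))) ^ j :=
    summable_geometric_of_lt_one hρ0 hρ
  have h3 : Summable fun x : Nat.Primes × ℕ =>
      4 * (((lam x.1 ^ 2 + 3) * ((x.1 : ℕ) : ℝ) ^ (-(1 + (1 / 2 - th)))) *
        ((2 : ℝ) ^ (-(1 / 2 - th))) ^ x.2) :=
    (h1.mul_of_nonneg h2 (fun p => mul_nonneg (by positivity) (Real.rpow_nonneg (p0 p).le _))
      fun k => by positivity).mul_left 4
  refine Summable.of_nonneg_of_le (fun x => ?_) (fun x => ?_) h3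
  · unfold W2
    have := p0 x.1
    positivity
  · obtain ⟨p, j⟩ := x
    unfold W2
    simp only
    have hp := p0 p
    set y : ℝ := ((p : ℕ) : ℝ) ^ th with hy
    have hy0 : 0 ≤ y := Real.rpow_nonneg hp.le _
    have hT := Tp_pos p
    have e1 := (H.ps_le2 p).1 (j + 2)
    have e2 := (H.ps_le2 p).2 j
    have e3 : ps (lam p) 1 (j + 2) ^ 2 ≤ (2 * (lam p ^ 2 + 3) * y ^ j) * (2 * y ^ (j + 2)) := by
      rw [← sq_abs, sq]
      exact mul_le_mul e2 e1 (abs_nonneg _) (by positivity)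
    have e4 : (1 : ℝ) ≤ ((j + 2 : ℕ) : ℝ) := by
      push_cast
      have : (0 : ℝ) ≤ j := Nat.cast_nonneg _
      linarith
    have e5 : (((p : ℕ) : ℝ) ^ (j + 2))⁻¹ = Tp p ^ (2 * (j + 2)) := by
      rw [pow_mul, Tp_sq, inv_pow]
    have hP : (0 : ℝ) < ((p : ℕ) : ℝ) ^ (j + 2) := by positivity
    calc ps (lam p) 1 (j + 2) ^ 2 / ((j + 2 : ℕ) * ((p : ℕ) : ℝ) ^ (j + 2)) ≤
          ps (lam p) 1 (j + 2) ^ 2 / (1 * ((p : ℕ) : ℝ) ^ (j + 2)) := by
          refine div_le_div_of_nonneg_left (sq_nonneg _) (by positivity) ?_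
          exact mul_le_mul_of_nonneg_right e4 hP.le
      _ = ps (lam p) 1 (j + 2) ^ 2 * Tp p ^ (2 * (j + 2)) := by rw [one_mul, div_eq_mul_inv, e5]
      _ ≤ ((2 * (lam p ^ 2 + 3) * y ^ j) * (2 * y ^ (j + 2))) * Tp p ^ (2 * (j + 2)) :=
          mul_le_mul_of_nonneg_right e3 (by positivity)
      _ = 4 * (lam p ^ 2 + 3) * Tp p ^ 2 * ((y * Tp p) ^ (j + 1) * (y * Tp p) ^ (j + 1)) := by ring
      _ ≤ 4 * (lam p ^ 2 + 3) * Tp p ^ 2 * ((((p : ℕ) : ℝ) ^ (-(1 / 2 - th)) *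
            ((2 : ℝ) ^ (-(1 / 2 - th))) ^ j) * 1) := by
          refine mul_le_mul_of_nonneg_left ?_ (by positivity)
          refine mul_le_mul (H.decay p j) ?_ (by positivity) ?_
          · exact pow_le_one₀ (by positivity) (H.yT_lt p).le
          · exact mul_nonneg (Real.rpow_nonneg hp.le _) (by positivity)
      _ = _ := by
          rw [Tp_sq, neg_add, Real.rpow_add hp, Real.rpow_neg_one]
          ring

/-- the part of the prime powers that are not primes -/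
noncomputable def wn (lam : ℕ → ℝ) (k : ℕ) : ℝ :=
  if k.Prime then 0 else
    ArithmeticFunction.vonMangoldt k * ‖(W388.cS 1 lam k : ℂ)‖ ^ 2 / k / Real.log k

lemma LF.cS_pow (H : LF lam th F) (p : Nat.Primes) (j : ℕ) :
    W388.cS 1 lam ((p : ℕ) ^ (j + 2)) = ps (lam p) 1 (j + 2) := by
  unfold W388.cS
  rw [Nat.Prime.pow_minFac p.2 (by omega), if_pos, H.ps_eq]
  · congr 2
    rw [pow_add, Nat.mul_div_cancel _ (pow_pos p.2.pos 2)]
  · refine ⟨pow_dvd_pow _ (by omega), fun h => ?_⟩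
    exact p.2.one_lt.ne' (Nat.dvd_one.1 h)

lemma LF.wn_sum (H : LF lam th F) : Summable (wn lam) := by
  rw [← (pow_inj 1).summable_iff]
  · refine H.W2_sum.congr fun x => ?_
    obtain ⟨p, j⟩ := x
    simp only [Function.comp_apply]
    unfold wn W2
    have hnp : ¬ Nat.Prime ((p : ℕ) ^ (j + (1 + 1))) := by
      refine Nat.Prime.not_prime_pow (by omega)
    have hp1 : (1 : ℝ) < ((p : ℕ) : ℝ) := by linarith [pp p]
    have hl := Real.log_pos hp1
    rw [if_neg hnp, ArithmeticFunction.vonMangoldt_apply_pow (by omega),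
      ArithmeticFunction.vonMangoldt_apply_prime p.2]
    have e1 : j + (1 + 1) = j + 2 := rfl
    rw [e1, H.cS_pow, Complex.norm_real, Real.norm_eq_abs, sq_abs, Nat.cast_pow, Real.log_pow]
    have h2 : ((j + 2 : ℕ) : ℝ) ≠ 0 := by positivity
    field_simp
  · intro k hk
    unfold wn
    split_ifs with h
    · rfl
    · by_cases hpp : IsPrimePow k
      · exfalso
        apply hk
        obtain ⟨p, i, hp, hi, rfl⟩ := (isPrimePow_nat_iff k).1 hpp
        have h1 : i ≠ 1 := by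
          rintro rfl
          exact h (by rwa [pow_one])
        obtain ⟨j, rfl⟩ : ∃ j, i = j + 2 := ⟨i - 2, by omega⟩
        exact ⟨(⟨p, hp⟩, j), rfl⟩
      · rw [ArithmeticFunction.vonMangoldt_eq_zero_iff.2 hpp]
        simp

lemma sum_Ioc_tail {f : ℕ → ℝ} (hf : Summable f) :
    Tendsto (fun n : ℕ => ∑ k ∈ Finset.Ioc (Nat.sqrt n) n, f k) atTop (𝓝 0) := by
  have hs : Tendsto (fun n : ℕ => Nat.sqrt n) atTop atTop := by
    refine tendsto_atTop.2 fun b => ?_
    filter_upwards [eventually_ge_atTop (b ^ 2)] with n hn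
    exact Nat.le_sqrt'.2 hn
  have h1 := hf.hasSum.tendsto_sum_nat
  have h2 : Tendsto (fun n : ℕ => ∑ k ∈ Finset.range (n + 1), f k) atTop (𝓝 (∑' k, f k)) :=
    h1.comp (tendsto_add_atTop_nat 1)
  have h3 := h2.sub (h2.comp hs)
  rw [sub_self] at h3
  refine h3.congr fun n => ?_
  simp only [Function.comp_apply]
  have e : Finset.Ioc (Nat.sqrt n) n = Finset.Ico (Nat.sqrt n + 1) (n + 1) := by
    ext k
    simp only [Finset.mem_Ioc, Finset.mem_Ico]
    omega
  rw [e, Finset.sum_Ico_eq_sub _ (by have := Nat.sqrt_le_self n; omega)]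

/-- **The half sum of the squares.** -/
theorem LF.half (H : LF lam th F) (hsel : W388.SelE (fun n => (W388.cS 1 lam n : ℂ))) :
    Tendsto (fun n : ℕ => ∑ p ∈ (Finset.Ioc (Nat.sqrt n) n).filter Nat.Prime, lam p ^ 2 / p) atTop
      (𝓝 (Real.log 2)) := by
  have h1 : Tendsto (fun n : ℕ => (∑ k ∈ Finset.Icc 1 n, ArithmeticFunction.vonMangoldt k *
      ‖(W388.cS 1 lam k : ℂ)‖ ^ 2 / k) / Real.log n) atTop (𝓝 1) := by
    refine (hsel.comp tendsto_natCast_atTop_atTop).congr fun n => ?_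
    simp only [Function.comp_apply, Nat.floor_natCast]
  have h2 := half_of_log h1
  have h3 := h2.sub (sum_Ioc_tail H.wn_sum)
  rw [sub_zero] at h3
  refine h3.congr fun n => ?_
  rw [← Finset.sum_sub_distrib, Finset.sum_filter]
  refine Finset.sum_congr rfl fun k hk => ?_
  unfold wn
  split_ifs with h
  · have h4 : (0 : ℝ) < Real.log k := Real.log_pos (by exact_mod_cast h.one_lt)
    have h5 : W388.cS 1 lam k = lam k := by
      unfold W388.cS
      rw [if_neg, sub_zero]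
      rintro ⟨h6, -⟩
      rw [h.minFac_eq] at h6
      have h7 := Nat.le_of_dvd h.pos h6
      have := h.two_le
      nlinarith
    rw [ArithmeticFunction.vonMangoldt_apply_prime h, h5, Complex.norm_real, Real.norm_eq_abs,
      sq_abs, sub_zero]
    field_simp
  · rw [sub_self]

end Pool.Agent.E8helper66.ND
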