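import Pool.Agent.E8helper66.ND.Loc
import Pool.Agent.E8helper66.BM.Gen

/-!
# The data of a form of level one
-/

set_option autoImplicit false

open Filter Topology Set Complex MeasureTheory
open Pool.Agent.TH942.LS (Dat)
open Pool.Agent.TH942.SL
open Pool.Agent.TH270.MS (Sh)
open Pool.Agent.E8helper66.BM (Gn)
open Pool.Agent.E8helper66.ML (ps ps_roots)

namespace Pool.Agent.E8helper66.ND

/-- a normalised form of level one, centre `1/2` -/
structure LF (lam : ℕ → ℝ) (th : ℝ) (F : ℂ → ℂ) : Prop where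
  one : lam 1 = 1
  pow : ∀ p j : ℕ, p.Prime → lam (p ^ (j + 2)) = lam p * lam (p ^ (j + 1)) - lam (p ^ j)
  th0 : 0 ≤ th
  th1 : th < 1 / 2
  bd : ∃ C : ℝ, 0 ≤ C ∧ ∀ n : ℕ, 1 ≤ n → |lam n| ≤ C * (n : ℝ) ^ th
  rs : ∀ σ : ℝ, 0 < σ → Summable fun n : ℕ => lam n ^ 2 * (n : ℝ) ^ (-(1 + σ))
  ent : Differentiable ℂ F
  prod : ∀ s : ℂ, 2 < s.re → HasProd (fun p : Nat.Primes =>
    (1 - (lam p : ℂ) * ((p : ℕ) : ℂ) ^ (-s) + ((p : ℕ) : ℂ) ^ (-2 * s))⁻¹) (F s)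
  cent : F (1 / 2) ≠ 0

variable {lam : ℕ → ℝ} {th : ℝ} {F : ℂ → ℂ}

lemma pp (p : Nat.Primes) : (2 : ℝ) ≤ ((p : ℕ) : ℝ) := by exact_mod_cast p.2.two_le

lemma p0 (p : Nat.Primes) : (0 : ℝ) < ((p : ℕ) : ℝ) := by linarith [pp p]

/-- the power sums and the coefficients at the prime powers -/
lemma LF.ps_eq (H : LF lam th F) (p : Nat.Primes) (k : ℕ) :
    ps (lam p) 1 (k + 2) = lam ((p : ℕ) ^ (k + 2)) - lam ((p : ℕ) ^ k) := by
  induction k using Nat.strong_induction_on with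
  | _ k ih =>
    match k with
    | 0 =>
      have h1 := H.pow p 0 p.2
      simp only [pow_zero, zero_add, pow_one, H.one] at h1
      rw [show (0 + 2) = 2 from rfl, h1, pow_zero, H.one]
      simp only [ps]
      ring
    | 1 =>
      have h1 := H.pow p 0 p.2
      have h2 := H.pow p 1 p.2
      simp only [pow_zero, zero_add, pow_one, H.one] at h1 h2
      rw [h2]
      simp only [ps, pow_one]
      have h3 : lam ((p : ℕ) ^ (1 + 1)) = lam p * lam p - 1 := h1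
      rw [h3]
      ring
    | (k + 2) =>
      have e1 := ih (k + 1) (by omega)
      have e2 := ih k (by omega)
      have h1 := H.pow p (k + 2) p.2
      have h2 := H.pow p k p.2
      have h3 := H.pow p (k + 1) p.2
      have e3 : ps (lam p) 1 (k + 2 + 2) = lam p * ps (lam p) 1 (k + 1 + 2) - 1 * ps (lam p) 1 (k + 2) :=
        rfl
      rw [e3, e1, e2, h1]
      have h4 : lam ((p : ℕ) ^ (k + 2)) = lam p * lam ((p : ℕ) ^ (k + 1)) - lam ((p : ℕ) ^ k) := h2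
      have h5 : lam ((p : ℕ) ^ (k + 1 + 2)) = lam ((p : ℕ) ^ (k + 2 + 1)) := rfl
      rw [h5]
      linear_combination h4

/-- the bound for the power sums -/
lemma LF.ps_le (H : LF lam th F) : ∃ K : ℝ, 0 ≤ K ∧ ∀ (p : Nat.Primes) (k : ℕ),
    |ps (lam p) 1 (k + 1)| ≤ K * (((p : ℕ) : ℝ) ^ th) ^ (k + 1) := by
  obtain ⟨C, hC, hb⟩ := H.bd
  have hth := H.th0
  refine ⟨2 * C, by positivity, fun p k => ?_⟩
  have hp := pp p
  have hp1 : (1 : ℝ) ≤ ((p : ℕ) : ℝ) := by linarith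
  have hp0 : (0 : ℝ) ≤ ((p : ℕ) : ℝ) := by linarith
  have h1 : ∀ j : ℕ, |lam ((p : ℕ) ^ j)| ≤ C * (((p : ℕ) : ℝ) ^ th) ^ j := by
    intro j
    refine (hb _ (Nat.one_le_pow _ _ p.2.pos)).trans (le_of_eq ?_)
    rw [Nat.cast_pow, ← Real.rpow_natCast, ← Real.rpow_mul hp0, ← Real.rpow_natCast,
      ← Real.rpow_mul hp0, mul_comm (j : ℝ)]
  have hy : (1 : ℝ) ≤ ((p : ℕ) : ℝ) ^ th := Real.one_le_rpow hp1 hth
  match k with
  | 0 =>
    have h2 := h1 1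
    simp only [pow_one, zero_add] at h2 ⊢
    have h3 : ps (lam p) 1 1 = lam p := rfl
    rw [h3]
    have h4 : 0 ≤ C * ((p : ℕ) : ℝ) ^ th := by positivity
    linarith
  | (k + 1) =>
    have h2 := H.ps_eq p k
    have h3 : ps (lam p) 1 (k + 1 + 1) = ps (lam p) 1 (k + 2) := rfl
    rw [h3, h2]
    have h4 := h1 (k + 2)
    have h5 := h1 k
    have h6 : (((p : ℕ) : ℝ) ^ th) ^ k ≤ (((p : ℕ) : ℝ) ^ th) ^ (k + 2) :=
      pow_le_pow_right₀ hy (by omega)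
    have h7 : C * (((p : ℕ) : ℝ) ^ th) ^ k ≤ C * (((p : ℕ) : ℝ) ^ th) ^ (k + 2) :=
      mul_le_mul_of_nonneg_left h6 hC
    have h8 : (((p : ℕ) : ℝ) ^ th) ^ (k + 1 + 1) = (((p : ℕ) : ℝ) ^ th) ^ (k + 2) := rfl
    rw [h8]
    calc |lam ((p : ℕ) ^ (k + 2)) - lam ((p : ℕ) ^ k)| ≤
          |lam ((p : ℕ) ^ (k + 2))| + |lam ((p : ℕ) ^ k)| := abs_sub _ _
      _ ≤ _ := by linarith

/-- `p^{-1/2}` -/
noncomputable def Tp (p : ℕ) : ℝ := ((p : ℝ)) ^ (-(1 / 2) : ℝ)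

lemma Tp_pos (p : Nat.Primes) : 0 < Tp p := Real.rpow_pos_of_pos (p0 p) _

lemma Tp_sq (p : Nat.Primes) : Tp p ^ 2 = (((p : ℕ) : ℝ))⁻¹ := by
  unfold Tp
  rw [← Real.rpow_natCast, ← Real.rpow_mul (p0 p).le, ← Real.rpow_neg_one]
  norm_num

/-- the roots are small -/
lemma LF.yT (_ : LF lam th F) (p : Nat.Primes) : ((p : ℕ) : ℝ) ^ th * Tp p =
    ((p : ℕ) : ℝ) ^ (-(1 / 2 - th)) := by
  unfold Tp
  rw [← Real.rpow_add (p0 p)]
  congr 1
  ring

lemma LF.rho_lt (H : LF lam th F) : (2 : ℝ) ^ (-(1 / 2 - th)) < 1 := by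
  have := H.th1
  exact Real.rpow_lt_one_of_one_lt_of_neg (by norm_num) (by linarith)

lemma LF.yT_le (H : LF lam th F) (p : Nat.Primes) : ((p : ℕ) : ℝ) ^ th * Tp p ≤
    (2 : ℝ) ^ (-(1 / 2 - th)) := by
  have := H.th1
  rw [H.yT p]
  exact Real.rpow_le_rpow_of_nonpos (by norm_num) (pp p) (by linarith)

lemma LF.yT_lt (H : LF lam th F) (p : Nat.Primes) : ((p : ℕ) : ℝ) ^ th * Tp p < 1 :=
  (H.yT_le p).trans_lt H.rho_lt

/-- the terms of the logarithm at the centre -/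
noncomputable def tt (lam : ℕ → ℝ) (x : Nat.Primes × ℕ) : ℝ :=
  ps (lam x.1) 1 (x.2 + 1) / ((x.2 + 1 : ℕ) : ℝ) * Tp x.1 ^ (x.2 + 1)

/-- the logarithms of the prime powers -/
noncomputable def wt (x : Nat.Primes × ℕ) : ℝ := ((x.2 + 1 : ℕ) : ℝ) * Real.log (x.1 : ℕ)

lemma wt_ge (x : Nat.Primes × ℕ) : Real.log 2 ≤ wt x := by
  unfold wt
  have h1 : Real.log 2 ≤ Real.log (x.1 : ℕ) := Real.log_le_log (by norm_num) (pp x.1)
  have h2 : (1 : ℝ) ≤ ((x.2 + 1 : ℕ) : ℝ) := by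
    push_cast
    have : (0 : ℝ) ≤ x.2 := Nat.cast_nonneg _
    linarith
  have h3 : 0 ≤ Real.log (x.1 : ℕ) := Real.log_nonneg (by linarith [pp x.1])
  nlinarith

lemma exp_wt (x : Nat.Primes × ℕ) : Real.exp (wt x) = ((x.1 : ℕ) : ℝ) ^ (x.2 + 1) := by
  unfold wt
  rw [Real.exp_nat_mul, Real.exp_log (p0 x.1)]

lemma LF.ps_le2 (H : LF lam th F) (p : Nat.Primes) : (∀ k : ℕ, |ps (lam p) 1 k| ≤
    2 * (((p : ℕ) : ℝ) ^ th) ^ k) ∧ ∀ k : ℕ, |ps (lam p) 1 (k + 2)| ≤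
      2 * (lam p ^ 2 + 3) * (((p : ℕ) : ℝ) ^ th) ^ k := by
  obtain ⟨K, hK, h⟩ := H.ps_le
  have hy : (1 : ℝ) ≤ ((p : ℕ) : ℝ) ^ th := Real.one_le_rpow (by linarith [pp p]) H.th0
  obtain ⟨α, β, -, -, -, -, h1, h2⟩ := ps_bounds hy hK (h p)
  exact ⟨h1, h2⟩

lemma LF.tt_le (H : LF lam th F) (x : Nat.Primes × ℕ) : |tt lam x| ≤ 2 := by
  unfold tt
  have h1 := (H.ps_le2 x.1).1 (x.2 + 1)
  have h2 := H.yT_lt x.1
  have hT := Tp_pos x.1
  have hy : (0 : ℝ) ≤ ((x.1 : ℕ) : ℝ) ^ th := Real.rpow_nonneg (p0 x.1).le _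
  have h3 : (1 : ℝ) ≤ ((x.2 + 1 : ℕ) : ℝ) := by
    push_cast
    have : (0 : ℝ) ≤ x.2 := Nat.cast_nonneg _
    linarith
  rw [abs_mul, abs_div, Nat.abs_cast, abs_of_nonneg (pow_nonneg hT.le _)]
  calc |ps (lam x.1) 1 (x.2 + 1)| / ((x.2 + 1 : ℕ) : ℝ) * Tp x.1 ^ (x.2 + 1) ≤
        2 * (((x.1 : ℕ) : ℝ) ^ th) ^ (x.2 + 1) * Tp x.1 ^ (x.2 + 1) := by
        refine mul_le_mul_of_nonneg_right ?_ (by positivity)
        exact (div_le_self (abs_nonneg _) h3).trans h1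
    _ = 2 * (((x.1 : ℕ) : ℝ) ^ th * Tp x.1) ^ (x.2 + 1) := by rw [mul_pow]; ring
    _ ≤ 2 * 1 := by
        refine mul_le_mul_of_nonneg_left ?_ (by norm_num)
        exact pow_le_one₀ (by positivity) h2.le
    _ = 2 := by norm_num

/-- the majorant -/
lemma maj : Summable fun x : Nat.Primes × ℕ => 2 * Real.exp (-(2 * wt x)) := by
  have h1 : Summable fun p : Nat.Primes => (((p : ℕ) : ℝ)) ^ (-(2 : ℝ)) :=
    Nat.Primes.summable_rpow.2 (by norm_num)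
  have h2 : Summable fun k : ℕ => (1 / 4 : ℝ) ^ k :=
    summable_geometric_of_lt_one (by norm_num) (by norm_num)
  have h3 : Summable fun x : Nat.Primes × ℕ => 2 * ((((x.1 : ℕ) : ℝ)) ^ (-(2 : ℝ)) * (1 / 4 : ℝ) ^ x.2) :=
    (h1.mul_of_nonneg h2 (fun p => Real.rpow_nonneg (p0 p).le _) fun k => by positivity).mul_left 2
  refine Summable.of_nonneg_of_le (fun x => by positivity) (fun x => ?_) h3
  refine mul_le_mul_of_nonneg_left ?_ (by norm_num)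
  have e1 : Real.exp (-(2 * wt x)) = ((((x.1 : ℕ) : ℝ)) ^ (-(2 : ℝ))) ^ (x.2 + 1) := by
    have : -(2 * wt x) = ((x.2 + 1 : ℕ) : ℝ) * (Real.log (x.1 : ℕ) * -2) := by
      unfold wt
      ring
    rw [this, Real.exp_nat_mul, Real.rpow_def_of_pos (p0 x.1)]
  have e2 : (((x.1 : ℕ) : ℝ)) ^ (-(2 : ℝ)) ≤ 1 / 4 := by
    have h4 : (((x.1 : ℕ) : ℝ)) ^ (-(2 : ℝ)) ≤ (2 : ℝ) ^ (-(2 : ℝ)) :=
      Real.rpow_le_rpow_of_nonpos (by norm_num) (pp x.1) (by norm_num)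
    have h5 : (2 : ℝ) ^ (-(2 : ℝ)) = 1 / 4 := by
      rw [Real.rpow_neg (by norm_num)]
      norm_num
    rwa [h5] at h4
  have e3 : 0 ≤ (((x.1 : ℕ) : ℝ)) ^ (-(2 : ℝ)) := Real.rpow_nonneg (p0 x.1).le _
  rw [e1, pow_succ']
  exact mul_le_mul_of_nonneg_left (pow_le_pow_left₀ e3 e2 _) e3

variable {e : ℕ ≃ Nat.Primes × ℕ}

/-- the exponents -/
noncomputable def la (e : ℕ ≃ Nat.Primes × ℕ) (n : ℕ) : ℝ := wt (e n)

/-- the coefficients -/
noncomputable def ca (lam : ℕ → ℝ) (e : ℕ ≃ Nat.Primes × ℕ) (n : ℕ) : ℝ := -tt lam (e n)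

theorem LF.dat (H : LF lam th F) (e : ℕ ≃ Nat.Primes × ℕ) :
    Dat (la e) (ca lam e) (Real.log 2) 2 where
  δ0 := Real.log_pos (by norm_num)
  σ0 := by norm_num
  lam_ge n := wt_ge (e n)
  sum := by
    have h1 : Summable fun x : Nat.Primes × ℕ => |tt lam x| * Real.exp (-(2 * wt x)) :=
      Summable.of_nonneg_of_le (fun x => by positivity)
        (fun x => mul_le_mul_of_nonneg_right (H.tt_le x) (Real.exp_pos _).le) maj
    have h2 := e.summable_iff.2 h1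
    refine h2.congr fun n => ?_
    simp only [Function.comp_apply, ca, la, abs_neg]

/-- the Euler product -/
theorem LF.exp_DD (H : LF lam th F) (e : ℕ ≃ Nat.Primes × ℕ) {s : ℂ} (hs : 2 < s.re) :
    exp (-DD (la e) (ca lam e) s) = F (1 / 2 + s) := by
  -- the sum over the pairs
  set u : Nat.Primes × ℕ → ℂ := fun x => (tt lam x : ℂ) * exp (-(s * wt x)) with hu
  have hus : Summable u := by
    refine Summable.of_norm_bounded maj fun x => ?_
    rw [hu]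
    simp only
    rw [norm_mul, Complex.norm_real, Real.norm_eq_abs, Complex.norm_exp]
    have e1 : (-(s * wt x) : ℂ).re = -(s.re * wt x) := by simp
    rw [e1]
    refine mul_le_mul (H.tt_le x) ?_ (Real.exp_pos _).le (by norm_num)
    refine Real.exp_le_exp.2 ?_
    have h1 := wt_ge x
    have h2 : 0 < Real.log 2 := Real.log_pos (by norm_num)
    nlinarith
  have e1 : -DD (la e) (ca lam e) s = ∑' x, u x := by
    unfold DD
    rw [← tsum_neg, ← e.tsum_eq u]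
    refine tsum_congr fun n => ?_
    simp only [hu, ca, la]
    push_cast
    ring
  rw [e1]
  have h1 := hus.hasSum
  have h2 : ∀ p, Summable fun k : ℕ => u (p, k) := fun p => hus.prod_factor p
  have h3 := (h1.prod_fiberwise fun p => (h2 p).hasSum).cexp
  have h4 := H.prod (1 / 2 + s) (by
    have : (1 / 2 + s : ℂ).re = 1 / 2 + s.re := by simp
    rw [this]
    linarith)
  refine h3.unique ?_
  convert h4 using 1
  funext p
  simp only [Function.comp_apply]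
  -- the local factor
  obtain ⟨K, hK, hb⟩ := H.ps_le
  have hy : (1 : ℝ) ≤ ((p : ℕ) : ℝ) ^ th := Real.one_le_rpow (by linarith [pp p]) H.th0
  obtain ⟨α, β, h5, h6, h7, h8, -, -⟩ := ps_bounds hy hK (hb p)
  have hpc : (((p : ℕ) : ℂ)) ≠ 0 := by exact_mod_cast p.2.ne_zero
  set T : ℂ := ((p : ℕ) : ℂ) ^ (-(1 / 2 + s)) with hT
  have hTn : ‖T‖ ≤ Tp p := by
    rw [hT, norm_natCast_cpow_of_pos p.2.pos]
    unfold Tp
    refine Real.rpow_le_rpow_of_exponent_le (by linarith [pp p]) ?_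
    simp
    linarith
  have hn : ∀ x : ℂ, ‖x‖ ≤ ((p : ℕ) : ℝ) ^ th → ‖x * T‖ < 1 := fun x hx => by
    rw [norm_mul]
    calc ‖x‖ * ‖T‖ ≤ ((p : ℕ) : ℝ) ^ th * Tp p := by gcongr
      _ < 1 := H.yT_lt p
  obtain ⟨S, hS, hexp⟩ := local_sum h5 h6 (hn α h7) (hn β h8)
  have h9 : (fun k : ℕ => u (p, k)) =
      fun k : ℕ => (ps (lam p) 1 (k + 1) : ℂ) / ((k + 1 : ℕ) : ℂ) * T ^ (k + 1) := by
    funext k
    rw [hu]
    simp only [tt, wt]
    have e2 : T ^ (k + 1) = ((Tp p : ℝ) : ℂ) ^ (k + 1) *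
        exp (-(s * ((((k + 1 : ℕ) : ℝ) * Real.log (p : ℕ) : ℝ) : ℂ))) := by
      have e3 : T = ((Tp p : ℝ) : ℂ) * exp (-(s * (Real.log (p : ℕ) : ℝ))) := by
        rw [hT]
        unfold Tp
        rw [Complex.ofReal_cpow (p0 p).le, neg_add, cpow_add _ _ hpc]
        congr 1
        · push_cast
          rfl
        · rw [cpow_def_of_ne_zero hpc, ← Complex.natCast_log]
          congr 1
          ring
      rw [e3, mul_pow, ← Complex.exp_nat_mul]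
      congr 2
      push_cast
      ring
    rw [e2]
    push_cast
    ring
  rw [h9, hS.tsum_eq, hexp]
  congr 1
  have e4 : ((p : ℕ) : ℂ) ^ (-2 * (1 / 2 + s)) = T ^ 2 := by
    rw [hT, ← cpow_nat_mul]
    congr 1
    push_cast
    ring
  rw [e4]
  push_cast
  ring

/-- **The data at the centre.** -/
theorem LF.gn (H : LF lam th F) (e : ℕ ≃ Nat.Primes × ℕ) :
    Gn (la e) (ca lam e) (Real.log 2) 2 (fun s => F (1 / 2 + s)) (fun s => F (1 / 2 + s)) 0 where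
  D := H.dat e
  hG := H.ent.comp (by fun_prop)
  hexp s hs := H.exp_DD e hs
  hg := by
    have h1 : Differentiable ℂ fun s : ℂ => F (1 / 2 + s) := H.ent.comp (by fun_prop)
    exact h1.analyticAt 0
  hg0 := by
    simpa using H.cent
  near := Eventually.of_forall fun s => by simp

end Pool.Agent.E8helper66.ND
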