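import Pool.Agent.E8helper66.ND.Pro
import Pool.Agent.E8helper66.BM.Fin

/-!
# The criterion for a form of level one
-/

set_option autoImplicit false

open MeasureTheory Filter Topology Set Complex
open Pool.Agent.TH942.LS (Dat P P_le)
open Pool.Agent.TH942.SL
open Pool.Agent.TH270.MS (Sh sh_le sh_zero sh_meas)
open Pool.Agent.E8helper66.BM (Gn Kr BI Grow Rg rg_iff rg_mono rg_real rg_exhaust rg_gt rg_re_im
  Ld_Sh BI_rep kr_mul_int reg bdd BI_add grow_log Ld)

namespace Pool.Agent.E8helper66.ND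

variable {lam : ℕ → ℝ} {th : ℝ} {F : ℂ → ℂ} {κ : ℝ}

/-- the logarithm of the product in the variable `v` -/
noncomputable def SL (lam : ℕ → ℝ) (κ v : ℝ) : ℝ := Lp lam ⌊Real.exp (κ * v)⌋₊

/-- the mean -/
noncomputable def bm (lam : ℕ → ℝ) (κ l : ℝ) : ℝ := Real.exp (-l) * BI (SL lam κ) l

lemma floor_meas (g : ℕ → ℝ) (κ : ℝ) : Measurable fun v : ℝ => g ⌊Real.exp (κ * v)⌋₊ := by
  have h1 : Measurable g := measurable_from_nat
  have h2 : Measurable fun v : ℝ => ⌊Real.exp (κ * v)⌋₊ :=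
    Nat.measurable_floor.comp (Real.measurable_exp.comp (measurable_const_mul κ))
  exact h1.comp h2

lemma Sh_eq (e : ℕ ≃ Nat.Primes × ℕ) (T : ℝ) :
    Sh (la e) (ca lam e) T = -Qn lam ⌊Real.exp T⌋₊ := by
  unfold Sh Qn
  rw [← tsum_neg, ← e.tsum_eq]
  refine tsum_congr fun n => ?_
  have h1 : la e n ≤ T ↔ ((e n).1 : ℕ) ^ ((e n).2 + 1) ≤ ⌊Real.exp T⌋₊ := by
    unfold la
    rw [Nat.le_floor_iff (Real.exp_pos T).le, Nat.cast_pow, ← exp_wt, Real.exp_le_exp]
  unfold ca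
  by_cases h : la e n ≤ T
  · rw [if_pos h, if_pos (h1.1 h)]
  · rw [if_neg h, if_neg fun h2 => h (h1.2 h2), neg_zero]

/-- the comparison of the means -/
theorem LF.compare (H : LF lam th F) (hsel : W388.SelE (fun n => (W388.cS 1 lam n : ℂ)))
    (hκ : 0 < κ) (e : ℕ ≃ Nat.Primes × ℕ) :
    (∀ l : ℝ, 0 < l → IntegrableOn (fun v => Kr l v * SL lam κ v) (Ioi 0)) ∧
    Tendsto (fun l => bm lam κ l + Real.exp (-l) * BI (fun v => Sh (la e) (ca lam e) (κ * v)) l)
      atTop (𝓝 (-(Real.log 2 / 2))) ∧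
    ∃ M : ℝ, ∀ᶠ l : ℝ in atTop,
      |bm lam κ l + Real.exp (-l) * BI (fun v => Sh (la e) (ca lam e) (κ * v)) l| ≤ M := by
  have hlim := H.diff hsel
  obtain ⟨M, hM⟩ : ∃ M : ℝ, ∀ n : ℕ, |Lp lam n - Qn lam n| ≤ M := by
    obtain ⟨M, hM⟩ := hlim.abs.bddAbove_range
    exact ⟨M, fun n => hM ⟨n, rfl⟩⟩
  have hL := Ld_Sh (H.dat e) hκ
  have hx : Real.exp (κ * 2) < Real.exp (κ * 2) + 1 := lt_add_one _
  set D : ℝ → ℝ := fun v => Lp lam ⌊Real.exp (κ * v)⌋₊ - Qn lam ⌊Real.exp (κ * v)⌋₊ with hD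
  have hDm : Measurable D := floor_meas (fun n => Lp lam n - Qn lam n) κ
  have hDb : ∀ v : ℝ, 0 < v → |D v| ≤ M := fun v _ => hM _
  have hDl : Tendsto D atTop (𝓝 (-(Real.log 2 / 2))) := by
    have h1 : Tendsto (fun v : ℝ => ⌊Real.exp (κ * v)⌋₊) atTop atTop :=
      tendsto_nat_floor_atTop.comp (Real.tendsto_exp_atTop.comp
        (tendsto_id.const_mul_atTop hκ))
    exact hlim.comp h1
  have i0 : ∀ l : ℝ, 0 < l →
      IntegrableOn (fun v => Kr l v * Sh (la e) (ca lam e) (κ * v)) (Ioi 0) :=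
    fun l hl => (BI_rep hL hl hx).1
  have i1 : ∀ l : ℝ, 0 < l → IntegrableOn (fun v => Kr l v * D v) (Ioi 0) :=
    fun l hl => kr_mul_int hl hDm hDb
  have eD : ∀ v, D v = SL lam κ v + Sh (la e) (ca lam e) (κ * v) := by
    intro v
    rw [Sh_eq, hD]
    unfold SL
    ring
  have i2 : ∀ l : ℝ, 0 < l → IntegrableOn (fun v => Kr l v * SL lam κ v) (Ioi 0) := by
    intro l hl
    refine ((i1 l hl).sub (i0 l hl)).congr (ae_of_all _ fun v => ?_)
    simp only [Pi.sub_apply]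
    rw [eD]
    ring
  have e1 : ∀ l : ℝ, 0 < l → bm lam κ l +
      Real.exp (-l) * BI (fun v => Sh (la e) (ca lam e) (κ * v)) l = Real.exp (-l) * BI D l := by
    intro l hl
    have h1 := BI_add (i2 l hl) (i0 l hl)
    have h2 : D = fun v => SL lam κ v + Sh (la e) (ca lam e) (κ * v) := funext eD
    rw [h2, h1]
    unfold bm
    have e' : BI (SL lam κ) l = BI (fun v => SL lam κ v) l := rfl
    rw [e']
    ring
  refine ⟨i2, ?_, 2 * M, ?_⟩
  · refine (reg hDm hDb hDl).congr' ?_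
    filter_upwards [eventually_gt_atTop 0] with l hl
    rw [e1 l hl]
  · filter_upwards [bdd hDm hDb, eventually_gt_atTop 0] with l h1 h2
    rw [e1 l h2]
    exact h1

/-- growth and zeros -/
theorem LF.no_zeros (H : LF lam th F) (hsel : W388.SelE (fun n => (W388.cS 1 lam n : ℂ)))
    (hκ : 0 < κ) (h : Grow (bm lam κ)) : ∀ s ∈ Rg κ, F (s - 1 / 2) ≠ 0 := by
  obtain ⟨e⟩ : Nonempty (ℕ ≃ Nat.Primes × ℕ) := nonempty_equiv_of_countable
  obtain ⟨-, -, M, hM⟩ := H.compare hsel hκ e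
  rw [rg_iff (F := fun s => F (s - 1 / 2)) hκ]
  have h1 : Grow fun l => Real.exp (-l) * BI (fun v => Sh (la e) (ca lam e) (κ * v)) l := by
    have h2 : Grow fun l => -bm lam κ l := by
      intro ε hε
      obtain ⟨K, hK⟩ := h ε hε
      exact ⟨K, hK.mono fun l hl => by rwa [abs_neg]⟩
    refine h2.congr (M := M) ?_
    filter_upwards [hM] with l hl
    have e1 : -bm lam κ l - Real.exp (-l) * BI (fun v => Sh (la e) (ca lam e) (κ * v)) l =
        -(bm lam κ l + Real.exp (-l) * BI (fun v => Sh (la e) (ca lam e) (κ * v)) l) := by ring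
    rw [e1, abs_neg]
    exact hl
  have h3 := (H.gn e).conv hκ h1
  intro z hz
  have h4 := h3 z hz
  have e1 : (1 + log z / κ - 1 / 2 : ℂ) = 1 / 2 + log z / κ := by ring
  rw [e1]
  exact h4

/-- the limit -/
theorem LF.limit (H : LF lam th F) (hsel : W388.SelE (fun n => (W388.cS 1 lam n : ℂ)))
    (hκ : 0 < κ) (h : ∀ s ∈ Rg κ, F (s - 1 / 2) ≠ 0) :
    ∃ c : ℝ, 0 < c ∧ F (1 / 2) = c ∧
      Tendsto (bm lam κ) atTop (𝓝 (Real.log (c / √2))) := by
  obtain ⟨e⟩ : Nonempty (ℕ ≃ Nat.Primes × ℕ) := nonempty_equiv_of_countable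
  obtain ⟨-, h1, -⟩ := H.compare hsel hκ e
  rw [rg_iff (F := fun s => F (s - 1 / 2)) hκ] at h
  obtain ⟨q, hq, C, hC, hb⟩ := (H.gn e).law hκ fun z hz => by
    have h4 := h z hz
    have e1 : (1 + log z / κ - 1 / 2 : ℂ) = 1 / 2 + log z / κ := by ring
    rwa [e1] at h4
  simp only [Nat.cast_zero, zero_mul, zero_sub, sub_zero, add_zero] at hq hb
  refine ⟨Real.exp (-q), Real.exp_pos _, hq, ?_⟩
  have h2 : Tendsto (fun l => Real.exp (-l) * BI (fun v => Sh (la e) (ca lam e) (κ * v)) l) atTop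
      (𝓝 q) := by
    rw [tendsto_iff_norm_sub_tendsto_zero]
    have hlim : Tendsto (fun l : ℝ => C * ((1 + Real.log l) / l)) atTop (𝓝 0) := by
      have := Pool.Agent.E8helper66.BM.loglim.const_mul C
      rwa [mul_zero] at this
    refine squeeze_zero' (Eventually.of_forall fun l => norm_nonneg _) ?_ hlim
    filter_upwards [eventually_ge_atTop 1] with l hl
    exact hb l hl
  have h3 := h1.sub h2
  have e1 : -(Real.log 2 / 2) - q = Real.log (Real.exp (-q) / √2) := by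
    rw [Real.log_div (Real.exp_pos _).ne' (by positivity), Real.log_exp, Real.log_sqrt (by norm_num)]
    ring
  rw [e1] at h3
  refine h3.congr fun l => ?_
  ring

/-- bounded functions grow slowly -/
lemma grow_of_tendsto {B : ℝ → ℝ} {a : ℝ} (h : Tendsto B atTop (𝓝 a)) : Grow B := by
  intro ε hε
  refine ⟨|a| + 1, ?_⟩
  filter_upwards [h.abs.eventually (gt_mem_nhds (lt_add_one _)), eventually_ge_atTop 0] with l h1 h2
  have e1 : 1 ≤ Real.exp (ε * l) := Real.one_le_exp (by positivity)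
  have e2 : 0 ≤ |a| + 1 := by positivity
  nlinarith

/-- no zeros near the real half line -/
theorem LF.large (H : LF lam th F) (hreal : ∀ x : ℝ, 1 / 2 < x → F x ≠ 0) :
    ∃ κ : ℝ, 0 < κ ∧ ∀ s ∈ Rg κ, F (s - 1 / 2) ≠ 0 := by
  obtain ⟨e⟩ : Nonempty (ℕ ≃ Nat.Primes × ℕ) := nonempty_equiv_of_countable
  have hFc : Continuous fun s : ℂ => F (1 / 2 + s) := (H.gn e).hG.continuous
  -- the segment
  set K : Set ℂ := (fun x : ℝ => (x : ℂ)) '' Icc 0 2 with hK
  have hKc : IsCompact K := isCompact_Icc.image Complex.continuous_ofReal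
  set Z : Set ℂ := {s | F (1 / 2 + s) = 0} with hZ
  have hZc : IsClosed Z := isClosed_eq hFc continuous_const
  have hd : Disjoint K Z := by
    rw [Set.disjoint_left]
    rintro _ ⟨x, hx, rfl⟩ h1
    have h2 : F (1 / 2 + (x : ℂ)) = 0 := h1
    rcases hx.1.eq_or_lt with h0 | h0
    · rw [← h0] at h2
      simp only [Complex.ofReal_zero, add_zero] at h2
      exact H.cent h2
    · have h3 := hreal (1 / 2 + x) (by linarith)
      rw [Complex.ofReal_add] at h3
      push_cast at h3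
      exact h3 h2
  obtain ⟨d, hd0, hdd⟩ := hd.exists_thickenings hKc hZc
  have hpi := Real.pi_pos
  refine ⟨Real.pi / (2 * d), by positivity, fun s hs h1 => ?_⟩
  have hκ : 0 < Real.pi / (2 * d) := by positivity
  have hre := rg_gt hκ hs
  have him : |s.im| < d := by
    have h2 := hs.1
    rw [abs_mul, abs_of_pos hκ, div_mul_eq_mul_div, div_lt_div_iff₀ (by positivity) two_pos] at h2
    have h3 : Real.pi * (|s.im| * 2) < Real.pi * (2 * d) := by linarith
    have := lt_of_mul_lt_mul_left h3 hpi.le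
    linarith
  set w : ℂ := s - 1 with hw
  have hwr : w.re = s.re - 1 := by rw [hw]; simp
  have hwi : w.im = s.im := by rw [hw]; simp
  have hsw : s - 1 / 2 = 1 / 2 + w := by rw [hw]; ring
  rw [hsw] at h1
  rcases lt_or_ge 2 w.re with h2 | h2
  · have h3 := H.exp_DD e h2
    rw [h1] at h3
    exact Complex.exp_ne_zero _ h3
  · have h4 : w ∈ Metric.thickening d K := by
      rw [Metric.mem_thickening_iff]
      refine ⟨(w.re : ℂ), ⟨w.re, ⟨by linarith, h2⟩, rfl⟩, ?_⟩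
      rw [Complex.dist_eq]
      have e1 : w - (w.re : ℂ) = (w.im : ℂ) * I := by
        refine Complex.ext ?_ ?_ <;> simp
      rw [e1, norm_mul, Complex.norm_I, mul_one, Complex.norm_real, Real.norm_eq_abs, hwi]
      exact him
    have h5 : w ∈ Metric.thickening d Z := Metric.self_subset_thickening hd0 _ h1
    exact Set.disjoint_left.1 hdd h4 h5

end Pool.Agent.E8helper66.ND
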