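import Pool.Agent.E8helper66.ND.Dat
import Pool.Agent.W263.BSD.Lead8
import Pool.Agent.W388.TW.D0

/-!
# Half sums
-/

set_option autoImplicit false

open Filter Topology Set
open Pool.Agent.E8helper66.ML (ps)

namespace Pool.Agent.E8helper66.ND

lemma log_pos' {n : ℕ} (hn : 2 ≤ n) : 0 < Real.log n :=
  Real.log_pos (by exact_mod_cast (by omega : 1 < n))

/-- partial summation -/
lemma abel (B : ℕ → ℝ) {N M : ℕ} (hN : 2 ≤ N) (hM : N ≤ M) :
    ∑ n ∈ Finset.Ioc N M, (B n - B (n - 1)) / Real.log n = B M / Real.log M - B N / Real.log N +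
      ∑ n ∈ Finset.Ico N M, B n * (1 / Real.log n - 1 / Real.log ((n + 1 : ℕ) : ℝ)) := by
  induction M, hM using Nat.le_induction with
  | base => simp
  | succ M hM ih =>
    rw [← Finset.insert_Ioc_right_eq_Ioc_add_one hM, Finset.sum_insert (by simp), ih,
      Finset.sum_Ico_succ_top hM]
    have h1 := (log_pos' (show 2 ≤ M by omega)).ne'
    have h2 := (log_pos' (show 2 ≤ M + 1 by omega)).ne'
    have h3 : M + 1 - 1 = M := by omega
    rw [h3]
    field_simp
    ring

lemma abel_bound (B : ℕ → ℝ) {N M : ℕ} (hN : 2 ≤ N) (hM : N ≤ M) {ε : ℝ} (hε : 0 ≤ ε)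
    (hB : ∀ n, N ≤ n → |B n| ≤ ε * Real.log n) :
    |∑ n ∈ Finset.Ioc N M, (B n - B (n - 1)) / Real.log n| ≤
      ε * (2 + (Real.log M - Real.log N) / Real.log N) := by
  rw [abel B hN hM]
  have hlN := log_pos' hN
  have hlM := log_pos' (hN.trans hM)
  have h1 : |B M / Real.log M| ≤ ε := by
    rw [abs_div, abs_of_pos hlM, div_le_iff₀ hlM]
    exact hB M hM
  have h2 : |B N / Real.log N| ≤ ε := by
    rw [abs_div, abs_of_pos hlN, div_le_iff₀ hlN]
    exact hB N le_rfl
  have h3 : |∑ n ∈ Finset.Ico N M, B n * (1 / Real.log n - 1 / Real.log ((n + 1 : ℕ) : ℝ))| ≤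
      ε * ((Real.log M - Real.log N) / Real.log N) := by
    refine (Finset.abs_sum_le_sum_abs _ _).trans ?_
    have h4 : ∀ n ∈ Finset.Ico N M, |B n * (1 / Real.log n - 1 / Real.log ((n + 1 : ℕ) : ℝ))| ≤
        ε * ((Real.log ((n + 1 : ℕ) : ℝ) - Real.log n) / Real.log N) := by
      intro n hn
      have hn1 := (Finset.mem_Ico.1 hn).1
      have hn2 := log_pos' (hN.trans hn1)
      have hn3 := log_pos' (show 2 ≤ n + 1 by omega)
      have hn4 : Real.log n ≤ Real.log ((n + 1 : ℕ) : ℝ) :=
        Real.log_le_log (by exact_mod_cast (by omega : 0 < n)) (by push_cast; linarith)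
      have hn5 : Real.log N ≤ Real.log ((n + 1 : ℕ) : ℝ) :=
        Real.log_le_log (by exact_mod_cast (by omega : 0 < N)) (by exact_mod_cast (by omega : N ≤ n + 1))
      have e1 : 1 / Real.log n - 1 / Real.log ((n + 1 : ℕ) : ℝ) =
          (Real.log ((n + 1 : ℕ) : ℝ) - Real.log n) / (Real.log n * Real.log ((n + 1 : ℕ) : ℝ)) := by
        field_simp
      have e2 : 0 ≤ (Real.log ((n + 1 : ℕ) : ℝ) - Real.log n) /
          (Real.log n * Real.log ((n + 1 : ℕ) : ℝ)) :=
        div_nonneg (by linarith) (by positivity)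
      rw [e1, abs_mul, abs_of_nonneg e2]
      calc |B n| * ((Real.log ((n + 1 : ℕ) : ℝ) - Real.log n) /
            (Real.log n * Real.log ((n + 1 : ℕ) : ℝ))) ≤
            (ε * Real.log n) * ((Real.log ((n + 1 : ℕ) : ℝ) - Real.log n) /
            (Real.log n * Real.log ((n + 1 : ℕ) : ℝ))) :=
            mul_le_mul_of_nonneg_right (hB n hn1) e2
        _ = ε * ((Real.log ((n + 1 : ℕ) : ℝ) - Real.log n) / Real.log ((n + 1 : ℕ) : ℝ)) := by
            field_simp
        _ ≤ _ := by
            refine mul_le_mul_of_nonneg_left ?_ hε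
            exact div_le_div_of_nonneg_left (by linarith) hlN hn5
    refine (Finset.sum_le_sum h4).trans (le_of_eq ?_)
    rw [← Finset.mul_sum, ← Finset.sum_div]
    congr 2
    exact Finset.sum_Ico_sub (fun n : ℕ => Real.log (n : ℝ)) hM
  have h5 := abs_le.1 h1
  have h6 := abs_le.1 h2
  have h7 := abs_le.1 h3
  rw [abs_le]
  constructor <;> linarith

/-- the reference sum -/
lemma ref_bounds {N M : ℕ} (hN : 3 ≤ N) (hM : N ≤ M) :
    Real.log (Real.log M) - Real.log (Real.log N) - (Real.log M - Real.log N) / N ≤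
      ∑ n ∈ Finset.Ioc N M, (Real.log n - Real.log ((n - 1 : ℕ) : ℝ)) / Real.log n ∧
    ∑ n ∈ Finset.Ioc N M, (Real.log n - Real.log ((n - 1 : ℕ) : ℝ)) / Real.log n ≤
      Real.log (Real.log M) - Real.log (Real.log N) := by
  have hNr : (3 : ℝ) ≤ N := by exact_mod_cast hN
  induction M, hM using Nat.le_induction with
  | base => simp
  | succ M hM ih =>
    rw [← Finset.insert_Ioc_right_eq_Ioc_add_one hM, Finset.sum_insert (by simp)]
    have h3 : M + 1 - 1 = M := by omega
    rw [h3]
    set a : ℝ := Real.log M with ha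
    set b : ℝ := Real.log ((M + 1 : ℕ) : ℝ) with hb
    have hMr : (3 : ℝ) ≤ M := by exact_mod_cast hN.trans hM
    have hNM : (N : ℝ) ≤ M := by exact_mod_cast hM
    have ha1 : 1 ≤ a := by
      rw [ha, Real.le_log_iff_exp_le (by linarith)]
      have := Real.exp_one_lt_d9
      linarith
    have hab : a ≤ b := Real.log_le_log (by linarith) (by push_cast; linarith)
    have hba : b - a ≤ 1 / N := by
      rw [ha, hb, ← Real.log_div (by positivity) (by linarith)]
      have h5 : ((M + 1 : ℕ) : ℝ) / M = 1 + 1 / M := by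
        push_cast
        field_simp
      have h6 := Real.log_le_sub_one_of_pos (show 0 < ((M + 1 : ℕ) : ℝ) / M by positivity)
      rw [h5] at h6 ⊢
      have h7 : 1 / (M : ℝ) ≤ 1 / N := one_div_le_one_div_of_le (by linarith) hNM
      linarith
    have h4 : Real.log b - Real.log a = Real.log (b / a) :=
      (Real.log_div (by linarith) (by linarith)).symm
    have h5 : Real.log (b / a) ≤ b / a - 1 := Real.log_le_sub_one_of_pos (by
      have : 0 < b := by linarith
      positivity)
    have h6 : (b - a) / b ≤ Real.log (b / a) := by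
      have h7 := Real.one_sub_inv_le_log_of_pos (show 0 < b / a by
        have : 0 < b := by linarith
        positivity)
      have h8 : 1 - (b / a)⁻¹ = (b - a) / b := by
        have : b ≠ 0 := by linarith
        rw [inv_div]
        field_simp
      rwa [h8] at h7
    have h7 : b / a - 1 ≤ (b - a) / b + (b - a) / N := by
      have hb0 : 0 < b := by linarith
      have ha0 : 0 < a := by linarith
      have hN0 : (0 : ℝ) < N := by linarith
      have e1 : b / a - 1 = (b - a) / b + (b - a) * (b - a) / (a * b) := by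
        field_simp
        ring
      rw [e1]
      have e2 : (b - a) * (b - a) / (a * b) ≤ (b - a) / N := by
        have e3 : (b - a) * (b - a) / (a * b) ≤ (b - a) * (b - a) / 1 := by
          refine div_le_div_of_nonneg_left (by nlinarith) one_pos ?_
          nlinarith
        refine e3.trans ?_
        rw [div_one]
        calc (b - a) * (b - a) ≤ (b - a) * (1 / N) :=
              mul_le_mul_of_nonneg_left hba (by linarith)
          _ = (b - a) / N := by ring
      linarith
    have h8 : (b - Real.log N) / N = (a - Real.log N) / N + (b - a) / N := by ring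
    obtain ⟨ih1, ih2⟩ := ih
    constructor
    · rw [h8]
      linarith
    · linarith

/-- `log n / log √n → 2` -/
lemma log_ratio : Tendsto (fun n : ℕ => Real.log n / Real.log (Nat.sqrt n : ℕ)) atTop (𝓝 2) := by
  have hs : Tendsto (fun n : ℕ => Nat.sqrt n) atTop atTop := by
    refine tendsto_atTop.2 fun b => ?_
    filter_upwards [eventually_ge_atTop (b ^ 2)] with n hn
    exact Nat.le_sqrt'.2 hn
  have hlog : Tendsto (fun n : ℕ => Real.log ((Nat.sqrt n : ℕ) : ℝ)) atTop atTop :=
    Real.tendsto_log_atTop.comp (tendsto_natCast_atTop_atTop.comp hs)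
  have h1 : Tendsto (fun n : ℕ => 2 + 2 / Real.log ((Nat.sqrt n : ℕ) : ℝ)) atTop (𝓝 (2 + 0)) :=
    tendsto_const_nhds.add (tendsto_const_nhds.div_atTop hlog)
  rw [add_zero] at h1
  refine tendsto_of_tendsto_of_tendsto_of_le_of_le' tendsto_const_nhds h1 ?_ ?_
  · filter_upwards [hs.eventually (eventually_ge_atTop 2)] with n hn
    have hl := log_pos' hn
    rw [le_div_iff₀ hl]
    have h2 : (Nat.sqrt n) ^ 2 ≤ n := Nat.sqrt_le' n
    have h3 : Real.log (((Nat.sqrt n) ^ 2 : ℕ) : ℝ) ≤ Real.log n := by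
      refine Real.log_le_log ?_ (by exact_mod_cast h2)
      have : 0 < (Nat.sqrt n) ^ 2 := by positivity
      exact_mod_cast this
    rw [Nat.cast_pow, Real.log_pow] at h3
    exact_mod_cast h3
  · filter_upwards [hs.eventually (eventually_ge_atTop 2)] with n hn
    have hl := log_pos' hn
    rw [div_le_iff₀ hl]
    have h2 : n < (Nat.sqrt n + 1) ^ 2 := Nat.lt_succ_sqrt' n
    have hn0 : 0 < n := by
      rcases Nat.eq_zero_or_pos n with h | h
      · subst h
        simp at hn
      · exact h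
    have h3 : Real.log n ≤ Real.log (((Nat.sqrt n + 1) ^ 2 : ℕ) : ℝ) :=
      Real.log_le_log (by exact_mod_cast hn0) (by exact_mod_cast h2.le)
    rw [Nat.cast_pow, Real.log_pow] at h3
    have h4 : Real.log ((Nat.sqrt n + 1 : ℕ) : ℝ) ≤ Real.log (Nat.sqrt n : ℕ) + 1 := by
      have hs0 : (0 : ℝ) < (Nat.sqrt n : ℕ) := by exact_mod_cast (by omega : 0 < Nat.sqrt n)
      have h5 : Real.log ((Nat.sqrt n + 1 : ℕ) : ℝ) - Real.log (Nat.sqrt n : ℕ) =
          Real.log (((Nat.sqrt n + 1 : ℕ) : ℝ) / (Nat.sqrt n : ℕ)) :=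
        (Real.log_div (by positivity) hs0.ne').symm
      have h6 := Real.log_le_sub_one_of_pos
        (show 0 < ((Nat.sqrt n + 1 : ℕ) : ℝ) / (Nat.sqrt n : ℕ) by positivity)
      have h7 : ((Nat.sqrt n + 1 : ℕ) : ℝ) / (Nat.sqrt n : ℕ) ≤ 2 := by
        rw [div_le_iff₀ hs0]
        push_cast
        have : (1 : ℝ) ≤ (Nat.sqrt n : ℕ) := by exact_mod_cast (by omega : 1 ≤ Nat.sqrt n)
        linarith
      linarith
    have h5 : (2 + 2 / Real.log (Nat.sqrt n : ℕ)) * Real.log (Nat.sqrt n : ℕ) =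
        2 * (Real.log (Nat.sqrt n : ℕ) + 1) := by
      field_simp
    rw [h5]
    push_cast at h3 h4 ⊢
    linarith

/-- **Half sums from logarithmic averages.** -/
theorem half_of_log {v : ℕ → ℝ}
    (h : Tendsto (fun n : ℕ => (∑ k ∈ Finset.Icc 1 n, v k) / Real.log n) atTop (𝓝 1)) :
    Tendsto (fun n : ℕ => ∑ k ∈ Finset.Ioc (Nat.sqrt n) n, v k / Real.log k) atTop
      (𝓝 (Real.log 2)) := by
  set A : ℕ → ℝ := fun n => ∑ k ∈ Finset.Icc 1 n, v k with hA
  set B : ℕ → ℝ := fun n => A n - Real.log n with hB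
  have hs : Tendsto (fun n : ℕ => Nat.sqrt n) atTop atTop := by
    refine tendsto_atTop.2 fun b => ?_
    filter_upwards [eventually_ge_atTop (b ^ 2)] with n hn
    exact Nat.le_sqrt'.2 hn
  have hr := log_ratio
  -- the part of `B`
  have h1 : Tendsto (fun n : ℕ => ∑ k ∈ Finset.Ioc (Nat.sqrt n) n, (B k - B (k - 1)) / Real.log k)
      atTop (𝓝 0) := by
    rw [Metric.tendsto_atTop]
    intro ε hε
    have h2 : ∀ᶠ n : ℕ in atTop, |B n| ≤ ε / 8 * Real.log n := by
      have h3 := (Metric.tendsto_atTop.1 h) (ε / 8) (by positivity)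
      obtain ⟨n₀, hn₀⟩ := h3
      filter_upwards [eventually_ge_atTop n₀, eventually_ge_atTop 2] with n h4 h5
      have h6 := (hn₀ n h4).le
      have hl := log_pos' h5
      rw [Real.dist_eq] at h6
      have e1 : B n = ((∑ k ∈ Finset.Icc 1 n, v k) / Real.log n - 1) * Real.log n := by
        rw [hB, hA]
        field_simp
      rw [e1, abs_mul, abs_of_pos hl]
      exact mul_le_mul_of_nonneg_right h6 hl.le
    obtain ⟨n₁, hn₁⟩ := eventually_atTop.1 h2
    have h3 : ∀ᶠ n : ℕ in atTop, Real.log n / Real.log (Nat.sqrt n : ℕ) < 3 :=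
      hr.eventually (gt_mem_nhds (by norm_num))
    obtain ⟨n₂, hn₂⟩ := eventually_atTop.1
      ((h3.and (hs.eventually (eventually_ge_atTop (max 2 n₁)))).and (eventually_ge_atTop 1))
    refine ⟨n₂, fun n hn => ?_⟩
    obtain ⟨⟨h4, h5⟩, h6⟩ := hn₂ n hn
    have h7 : 2 ≤ Nat.sqrt n := (le_max_left _ _).trans h5
    have h8 : n₁ ≤ Nat.sqrt n := (le_max_right _ _).trans h5
    have hl := log_pos' h7
    have h9 := abel_bound B h7 (Nat.sqrt_le_self n) (show 0 ≤ ε / 8 by positivity)
      fun k hk => hn₁ k (h8.trans hk)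
    rw [Real.dist_eq, sub_zero]
    have h10 : (Real.log n - Real.log (Nat.sqrt n : ℕ)) / Real.log (Nat.sqrt n : ℕ) ≤ 2 := by
      rw [sub_div, div_self hl.ne']
      linarith
    calc _ ≤ ε / 8 * (2 + (Real.log n - Real.log (Nat.sqrt n : ℕ)) / Real.log (Nat.sqrt n : ℕ)) := h9
      _ ≤ ε / 8 * (2 + 2) := by gcongr
      _ < ε := by linarith
  -- the reference part
  have h2 : Tendsto (fun n : ℕ => ∑ k ∈ Finset.Ioc (Nat.sqrt n) n,
      (Real.log k - Real.log ((k - 1 : ℕ) : ℝ)) / Real.log k) atTop (𝓝 (Real.log 2)) := by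
    have e1 : Tendsto (fun n : ℕ => Real.log (Real.log n / Real.log (Nat.sqrt n : ℕ))) atTop
        (𝓝 (Real.log 2)) := hr.log (by norm_num)
    have e2 : Tendsto (fun n : ℕ => (Real.log n / Real.log (Nat.sqrt n : ℕ) - 1) *
        (Real.log (Nat.sqrt n : ℕ) / (Nat.sqrt n : ℕ))) atTop (𝓝 ((2 - 1) * 0)) := by
      refine (hr.sub_const 1).mul ?_
      have h3 : Tendsto (fun x : ℝ => Real.log x / x) atTop (𝓝 0) := by
        have := Real.isLittleO_log_id_atTop.tendsto_div_nhds_zero
        simpa using this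
      exact h3.comp (tendsto_natCast_atTop_atTop.comp hs)
    have e3 := e1.sub e2
    rw [mul_zero, sub_zero] at e3
    refine tendsto_of_tendsto_of_tendsto_of_le_of_le' e3 e1 ?_ ?_
    · filter_upwards [hs.eventually (eventually_ge_atTop 3)] with n hn
      have hl := log_pos' (show 2 ≤ Nat.sqrt n by omega)
      have hsn := Nat.sqrt_le_self n
      have hl2 := log_pos' (show 2 ≤ n by omega)
      refine le_trans (le_of_eq ?_) (ref_bounds hn hsn).1
      rw [Real.log_div hl2.ne' hl.ne']
      congr 1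
      have : ((Nat.sqrt n : ℕ) : ℝ) ≠ 0 := by exact_mod_cast (by omega : Nat.sqrt n ≠ 0)
      field_simp
    · filter_upwards [hs.eventually (eventually_ge_atTop 3)] with n hn
      have hl := log_pos' (show 2 ≤ Nat.sqrt n by omega)
      have hsn := Nat.sqrt_le_self n
      have hl2 := log_pos' (show 2 ≤ n by omega)
      rw [Real.log_div hl2.ne' hl.ne']
      exact (ref_bounds hn hsn).2
  have h3 := h1.add h2
  rw [zero_add] at h3
  refine h3.congr fun n => ?_
  rw [← Finset.sum_add_distrib]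
  refine Finset.sum_congr rfl fun k hk => ?_
  have hk1 : 1 ≤ k := by
    have := (Finset.mem_Ioc.1 hk).1
    omega
  rw [← add_div]
  congr 1
  have e1 : A k = A (k - 1) + v k := by
    rw [hA]
    simp only
    obtain ⟨j, rfl⟩ : ∃ j, k = j + 1 := ⟨k - 1, by omega⟩
    rw [Nat.add_sub_cancel, Finset.sum_Icc_succ_top (by omega)]
  rw [hB]
  simp only
  rw [e1]
  ring

end Pool.Agent.E8helper66.ND
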