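import Pool.Agent.E8helper66.ND.Fin
import Pool.Agent.E8helper66.BM.Lev

/-!
# The exact growth
-/

set_option autoImplicit false

open MeasureTheory Filter Topology Set Complex
open Pool.Agent.TH942.LS (Dat P P_le)
open Pool.Agent.TH942.SL
open Pool.Agent.TH270.MS (Sh sh_le sh_zero sh_meas)
open Pool.Agent.E8helper66.BM (HP_pos Gn Kr BI Grow HA HA_HP RgA rgA_iff exists_fA upA conv_neA fz X₀ far_re)

namespace Pool.Agent.E8helper66.ND

variable {lam : ℕ → ℝ} {th : ℝ} {F : ℂ → ℂ} {κ θ : ℝ}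

/-- **The exact exponential growth.** -/
theorem LF.level (H : LF lam th F) (hsel : W388.SelE (fun n => (W388.cS 1 lam n : ℂ)))
    (hκ : 0 < κ) (hθ : 0 ≤ θ) :
    (∀ s ∈ RgA κ θ, F (s - 1 / 2) ≠ 0) ↔ ∀ ε : ℝ, 0 < ε → ∃ K : ℝ, ∀ᶠ l : ℝ in atTop,
      |bm lam κ l| ≤ K * Real.exp ((θ + ε) * l) := by
  obtain ⟨e⟩ : Nonempty (ℕ ≃ Nat.Primes × ℕ) := nonempty_equiv_of_countable
  obtain ⟨-, -, M, hM⟩ := H.compare hsel hκ e
  set lm : ℕ → ℝ := la e with hlm
  set c : ℕ → ℝ := ca lam e with hc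
  have G := H.gn e
  have hA : 1 ≤ 1 + θ := by linarith
  have hGd : ∀ z ∈ HA (1 + θ), DifferentiableAt ℂ (fun z => F (1 / 2 + log z / κ)) z := by
    intro z hz
    have h1 : DifferentiableAt ℂ (fun z : ℂ => log z / κ) z :=
      ((Complex.hasDerivAt_log (slit
        (HP_pos (HA_HP hA hz)))).differentiableAt).div_const _
    exact DifferentiableAt.comp (f := fun z : ℂ => log z / κ) z (G.hG _) h1
  have hGf : ∀ z ∈ HA (1 + θ), X₀ κ 2 ≤ ‖z‖ → F (1 / 2 + log z / κ) = exp (-fz lm c κ z) := by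
    intro z hz h
    have := far_re hκ (show Real.exp (κ * (2 + 1)) ≤ ‖z‖ from h)
    have h2 := G.hexp (log z / κ) (by linarith)
    rw [← h2]
    rfl
  have hee : ∀ l : ℝ, Real.exp l * Real.exp (-l) = 1 := fun l => by
    rw [← Real.exp_add]
    simp
  rw [rgA_iff (F := fun s => F (s - 1 / 2)) hκ hθ]
  have hsh : ∀ z : ℂ, (1 + log z / κ - 1 / 2 : ℂ) = 1 / 2 + log z / κ := fun z => by ring
  simp only [hsh]
  constructor
  · intro h ε hε
    obtain ⟨f, hf, hff⟩ := exists_fA G.D hκ hA hGd h hGf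
    obtain ⟨C, hC, hCb⟩ := upA G.D hκ hA hf hff (a := 1 + θ + ε) (by linarith)
    refine ⟨C + |M|, ?_⟩
    filter_upwards [hM, eventually_gt_atTop 0] with l h1 hl
    have h2 := hCb l hl
    have h3 : |Real.exp (-l) * BI (fun v => Sh lm c (κ * v)) l| ≤ C * Real.exp ((θ + ε) * l) := by
      rw [abs_mul, Real.abs_exp]
      have e1 : Real.exp ((θ + ε) * l) = Real.exp (-l) * Real.exp ((1 + θ + ε) * l) := by
        rw [← Real.exp_add]
        congr 1
        ring
      calc Real.exp (-l) * |BI (fun v => Sh lm c (κ * v)) l| ≤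
            Real.exp (-l) * (C * Real.exp ((1 + θ + ε) * l)) := by gcongr
        _ = _ := by rw [e1]; ring
    have e1 : 1 ≤ Real.exp ((θ + ε) * l) := Real.one_le_exp (by positivity)
    have e2 : |bm lam κ l| ≤ |bm lam κ l + Real.exp (-l) * BI (fun v => Sh lm c (κ * v)) l| +
        |Real.exp (-l) * BI (fun v => Sh lm c (κ * v)) l| := by
      have := abs_sub (bm lam κ l + Real.exp (-l) * BI (fun v => Sh lm c (κ * v)) l)
        (Real.exp (-l) * BI (fun v => Sh lm c (κ * v)) l)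
      rwa [add_sub_cancel_right] at this
    have e3 : |M| ≤ |M| * Real.exp ((θ + ε) * l) := le_mul_of_one_le_right (abs_nonneg _) e1
    have e4 := le_abs_self M
    rw [add_mul]
    linarith
  · intro h
    refine conv_neA G.D hκ hA (G := fun z => F (1 / 2 + log z / κ)) hGd hGf fun ε hε => ?_
    obtain ⟨K, hK⟩ := h ε hε
    refine ⟨|K| + |M|, ?_⟩
    filter_upwards [hK, hM, eventually_gt_atTop 0] with l h1 h2 hl
    have e1 : 1 ≤ Real.exp ((θ + ε) * l) := Real.one_le_exp (by positivity)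
    have e2 : |Real.exp (-l) * BI (fun v => Sh lm c (κ * v)) l| ≤
        |bm lam κ l + Real.exp (-l) * BI (fun v => Sh lm c (κ * v)) l| + |bm lam κ l| := by
      have := abs_sub (bm lam κ l + Real.exp (-l) * BI (fun v => Sh lm c (κ * v)) l) (bm lam κ l)
      rwa [add_sub_cancel_left] at this
    have e3 : |M| ≤ |M| * Real.exp ((θ + ε) * l) := le_mul_of_one_le_right (abs_nonneg _) e1
    have e4 := le_abs_self M
    have e5 : K * Real.exp ((θ + ε) * l) ≤ |K| * Real.exp ((θ + ε) * l) :=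
      mul_le_mul_of_nonneg_right (le_abs_self K) (Real.exp_pos _).le
    have e6 : Real.exp (-l) * |BI (fun v => Sh lm c (κ * v)) l| ≤
        (|K| + |M|) * Real.exp ((θ + ε) * l) := by
      rw [abs_mul, Real.abs_exp] at e2
      rw [add_mul]
      linarith
    have e7 : Real.exp ((1 + θ + ε) * l) = Real.exp l * Real.exp ((θ + ε) * l) := by
      rw [← Real.exp_add]
      congr 1
      ring
    calc |BI (fun v => Sh lm c (κ * v)) l| =
          (Real.exp l * Real.exp (-l)) * |BI (fun v => Sh lm c (κ * v)) l| := by rw [hee, one_mul]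
      _ = Real.exp l * (Real.exp (-l) * |BI (fun v => Sh lm c (κ * v)) l|) := by ring
      _ ≤ Real.exp l * ((|K| + |M|) * Real.exp ((θ + ε) * l)) := by gcongr
      _ = _ := by rw [e7]; ring

end Pool.Agent.E8helper66.ND
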