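import Pool.Agent.E8helper66.ML.Eul

/-!
# Local factors with the product of the roots equal to one
-/

set_option autoImplicit false

open Filter Topology Set Complex
open Pool.Agent.E8helper66.ML (ps ps_roots exists_roots)

namespace Pool.Agent.E8helper66.ND

/-- the local sum -/
theorem local_sum {a e : ℝ} {α β T : ℂ} (h1 : α + β = a) (h2 : α * β = e)
    (hα : ‖α * T‖ < 1) (hβ : ‖β * T‖ < 1) :
    ∃ S : ℂ, HasSum (fun k : ℕ => (ps a e (k + 1) : ℂ) / ((k + 1 : ℕ) : ℂ) * T ^ (k + 1)) S ∧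
      exp S = (1 - a * T + e * T ^ 2)⁻¹ := by
  have hne : ∀ x : ℂ, ‖x * T‖ < 1 → 1 - x * T ≠ 0 := fun x hx h0 => by
    have h4 : x * T = 1 := by linear_combination -h0
    rw [h4, norm_one] at hx
    exact lt_irrefl _ hx
  have hs : ∀ x : ℂ, ‖x * T‖ < 1 →
      HasSum (fun k : ℕ => (x * T) ^ (k + 1) / ((k + 1 : ℕ) : ℂ)) (-log (1 - x * T)) := by
    intro x hx
    have h3 := Complex.hasSum_taylorSeries_neg_log hx
    have h4 := (hasSum_nat_add_iff' 1).2 h3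
    simp only [Finset.range_one, Finset.sum_singleton, pow_zero, Nat.cast_zero, div_zero,
      sub_zero] at h4
    exact h4
  have h5 := (hs α hα).add (hs β hβ)
  refine ⟨-log (1 - α * T) + -log (1 - β * T), ?_, ?_⟩
  · convert h5 using 1
    funext k
    rw [ps_roots h1 h2, mul_pow, mul_pow]
    ring
  · rw [Complex.exp_add, Complex.exp_neg, Complex.exp_neg, Complex.exp_log (hne α hα),
      Complex.exp_log (hne β hβ), ← mul_inv]
    congr 1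
    rw [← h1, ← h2]
    ring

/-- the roots -/
theorem roots_one (a : ℝ) : ∃ α β : ℂ, α + β = a ∧ α * β = ((1 : ℝ) : ℂ) ∧ ‖β‖ ≤ 1 ∧ 1 ≤ ‖α‖ ∧
    ‖α‖ ^ 2 ≤ a ^ 2 + 3 := by
  have key : ∀ α β : ℂ, α + β = a → α * β = ((1 : ℝ) : ℂ) → ‖β‖ ≤ ‖α‖ →
      ‖β‖ ≤ 1 ∧ 1 ≤ ‖α‖ ∧ ‖α‖ ^ 2 ≤ a ^ 2 + 3 := by
    intro α β h1 h2 h3
    have h4 : ‖α‖ * ‖β‖ = 1 := by
      rw [← norm_mul, h2]
      simp
    have h5 := norm_nonneg β
    have h6 := norm_nonneg α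
    have h7 : ‖β‖ ≤ 1 := by nlinarith
    refine ⟨h7, by nlinarith, ?_⟩
    have h8 : α ^ 2 = (a : ℂ) ^ 2 - 2 - β ^ 2 := by
      have h2' : α * β = 1 := by
        rw [h2]
        norm_num
      rw [← h1]
      linear_combination (-2 : ℂ) * h2'
    rw [← norm_pow, h8]
    have h9 : ‖(a : ℂ) ^ 2 - 2 - β ^ 2‖ ≤ ‖(a : ℂ) ^ 2‖ + ‖(2 : ℂ)‖ + ‖β ^ 2‖ :=
      (norm_sub_le _ _).trans (add_le_add (norm_sub_le _ _) le_rfl)
    rw [norm_pow, norm_pow, Complex.norm_real, Real.norm_eq_abs, sq_abs] at h9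
    have h10 : ‖(2 : ℂ)‖ = 2 := by norm_num
    rw [h10] at h9
    nlinarith
  obtain ⟨α, β, h1, h2⟩ := exists_roots (a : ℂ) ((1 : ℝ) : ℂ)
  rcases le_total ‖β‖ ‖α‖ with h | h
  · obtain ⟨h3, h4, h5⟩ := key α β h1 h2 h
    exact ⟨α, β, h1, h2, h3, h4, h5⟩
  · obtain ⟨h3, h4, h5⟩ := key β α (by rw [add_comm]; exact h1) (by rw [mul_comm]; exact h2) h
    exact ⟨β, α, by rw [add_comm]; exact h1, by rw [mul_comm]; exact h2, h3, h4, h5⟩

lemma le_of_pow {x y K : ℝ} (hy : 0 < y) (h : ∀ k : ℕ, x ^ k ≤ K * y ^ k) : x ≤ y := by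
  by_contra hcon
  push Not at hcon
  have h1 : 1 < x / y := by rwa [one_lt_div hy]
  obtain ⟨n, hn⟩ := pow_unbounded_of_one_lt K h1
  have h2 := h n
  rw [div_pow, lt_div_iff₀ (pow_pos hy n)] at hn
  linarith

/-- the power sums, in terms of the size of the first root -/
theorem ps_bounds {a y K : ℝ} (hy : 1 ≤ y) (hK : 0 ≤ K) (h : ∀ k : ℕ, |ps a 1 (k + 1)| ≤ K * y ^ (k + 1)) :
    ∃ α β : ℂ, α + β = a ∧ α * β = ((1 : ℝ) : ℂ) ∧ ‖α‖ ≤ y ∧ ‖β‖ ≤ y ∧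
      (∀ k : ℕ, |ps a 1 k| ≤ 2 * y ^ k) ∧
      ∀ k : ℕ, |ps a 1 (k + 2)| ≤ 2 * (a ^ 2 + 3) * y ^ k := by
  obtain ⟨α, β, h1, h2, h3, h4, h5⟩ := roots_one a
  have hps : ∀ k : ℕ, |ps a 1 k| = ‖α ^ k + β ^ k‖ := fun k => by
    rw [← ps_roots h1 h2 k, Complex.norm_real, Real.norm_eq_abs]
  have hα : ‖α‖ ≤ y := by
    refine le_of_pow (K := K + 1) (by linarith) fun k => ?_
    have e1 : 1 ≤ y ^ k := one_le_pow₀ hy
    rcases Nat.eq_zero_or_pos k with hk | hk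
    · subst hk
      simp
      exact hK
    · obtain ⟨j, rfl⟩ : ∃ j, k = j + 1 := ⟨k - 1, by omega⟩
      have e2 := h j
      rw [hps] at e2
      have e3 : ‖α ^ (j + 1)‖ ≤ ‖α ^ (j + 1) + β ^ (j + 1)‖ + ‖β ^ (j + 1)‖ := by
        have := norm_sub_le (α ^ (j + 1) + β ^ (j + 1)) (β ^ (j + 1))
        rwa [add_sub_cancel_right] at this
      rw [norm_pow α, norm_pow β] at e3
      have e4 : ‖β‖ ^ (j + 1) ≤ 1 := pow_le_one₀ (norm_nonneg β) h3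
      rw [add_mul, one_mul]
      linarith
  have hβ : ‖β‖ ≤ y := h3.trans hy
  refine ⟨α, β, h1, h2, hα, hβ, fun k => ?_, fun k => ?_⟩
  · rw [hps]
    refine (norm_add_le _ _).trans ?_
    rw [norm_pow, norm_pow]
    have e1 := pow_le_pow_left₀ (norm_nonneg α) hα k
    have e2 := pow_le_pow_left₀ (norm_nonneg β) hβ k
    linarith
  · rw [hps]
    refine (norm_add_le _ _).trans ?_
    rw [norm_pow, norm_pow]
    have e1 := pow_le_pow_left₀ (norm_nonneg α) hα k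
    have e2 : ‖β‖ ^ (k + 2) ≤ 1 := pow_le_one₀ (norm_nonneg β) h3
    have e3 : 1 ≤ y ^ k := one_le_pow₀ hy
    have e4 : ‖α‖ ^ (k + 2) ≤ y ^ k * (a ^ 2 + 3) := by
      rw [pow_add]
      exact mul_le_mul e1 h5 (by positivity) (by positivity)
    nlinarith [sq_nonneg a]

/-- the real local factor -/
theorem local_real {a y K T : ℝ} (hy : 1 ≤ y) (hK : 0 ≤ K)
    (h : ∀ k : ℕ, |ps a 1 (k + 1)| ≤ K * y ^ (k + 1)) (hT : 0 < T) (hyT : y * T < 1) :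
    0 < 1 - a * T + T ^ 2 ∧
      HasSum (fun k : ℕ => ps a 1 (k + 1) / ((k + 1 : ℕ) : ℝ) * T ^ (k + 1))
        (-Real.log (1 - a * T + T ^ 2)) := by
  obtain ⟨α, β, h1, h2, h3, h4, -, -⟩ := ps_bounds hy hK h
  have hn : ∀ x : ℂ, ‖x‖ ≤ y → ‖x * (T : ℂ)‖ < 1 := fun x hx => by
    rw [norm_mul, Complex.norm_real, Real.norm_of_nonneg hT.le]
    exact lt_of_le_of_lt (mul_le_mul_of_nonneg_right hx hT.le) hyT
  obtain ⟨S, hS, hexp⟩ := local_sum h1 h2 (hn α h3) (hn β h4)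
  have hS' : HasSum (fun k : ℕ => ((ps a 1 (k + 1) / ((k + 1 : ℕ) : ℝ) * T ^ (k + 1) : ℝ) : ℂ)) S := by
    convert hS using 1
    funext k
    push_cast
    rfl
  have him : S.im = 0 := by
    have h5 := Complex.hasSum_im hS'
    simp only [Complex.ofReal_im] at h5
    exact h5.unique hasSum_zero
  have hre := Complex.hasSum_re hS'
  simp only [Complex.ofReal_re] at hre
  have hSr : S = (S.re : ℂ) := Complex.ext (by simp) (by simp [him])
  have e1 : Real.exp S.re = (1 - a * T + T ^ 2)⁻¹ := by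
    have h6 : ((Real.exp S.re : ℝ) : ℂ) = (((1 - a * T + T ^ 2)⁻¹ : ℝ) : ℂ) := by
      rw [Complex.ofReal_exp, ← hSr, hexp]
      push_cast
      ring
    exact_mod_cast h6
  have hpos : 0 < 1 - a * T + T ^ 2 := by
    rw [← inv_pos, ← e1]
    exact Real.exp_pos _
  refine ⟨hpos, ?_⟩
  have e2 : -Real.log (1 - a * T + T ^ 2) = S.re := by
    rw [← Real.log_inv, ← e1, Real.log_exp]
  rw [e2]
  exact hre

end Pool.Agent.E8helper66.ND
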