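import Pool.Agent.E8helper66.ND.Hal2

/-!
# The product and the sum over the prime powers
-/

set_option autoImplicit false

open Filter Topology Set
open Pool.Agent.E8helper66.ML (ps)

namespace Pool.Agent.E8helper66.ND

variable {lam : ℕ → ℝ} {th : ℝ} {F : ℂ → ℂ}

/-- the logarithm of the product -/
noncomputable def Lp (lam : ℕ → ℝ) (n : ℕ) : ℝ :=
  ∑ p ∈ (Finset.range (n + 1)).filter Nat.Prime, -Real.log (1 - lam p * Tp p + Tp p ^ 2)

/-- the sum over the prime powers -/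
noncomputable def Qn (lam : ℕ → ℝ) (n : ℕ) : ℝ :=
  ∑' x : Nat.Primes × ℕ, if (x.1 : ℕ) ^ (x.2 + 1) ≤ n then tt lam x else 0

lemma tsum_primes (g : ℕ → ℝ) (n : ℕ) : ∑' p : Nat.Primes, (if (p : ℕ) ≤ n then g p else 0) =
    ∑ p ∈ (Finset.range (n + 1)).filter Nat.Prime, g p := by
  have h1 := tsum_subtype {p : ℕ | p.Prime} (fun p => if p ≤ n then g p else 0)
  have h2 : ∑' p : Nat.Primes, (if (p : ℕ) ≤ n then g p else 0) =
      ∑' x : {p : ℕ | p.Prime}, (fun p => if p ≤ n then g p else 0) (x : ℕ) := rfl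
  rw [h2, h1, tsum_eq_sum (s := Finset.range (n + 1)), Finset.sum_filter]
  · refine Finset.sum_congr rfl fun p hp => ?_
    have hp' : p ≤ n := by
      have := Finset.mem_range.1 hp
      omega
    by_cases h : p.Prime
    · rw [Set.indicator_of_mem (by exact h), if_pos hp', if_pos h]
    · rw [Set.indicator_of_notMem (by exact h), if_neg h]
  · intro p hp
    have hp' : ¬ p ≤ n := by
      intro h
      exact hp (Finset.mem_range.2 (by omega))
    by_cases h : p.Prime
    · rw [Set.indicator_of_mem (by exact h), if_neg hp']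
    · rw [Set.indicator_of_notMem (by exact h)]

lemma tsum_primes_sq (g : ℕ → ℝ) (n : ℕ) :
    ∑' p : Nat.Primes, (if (p : ℕ) ^ 2 ≤ n then g p else 0) =
      ∑ p ∈ (Finset.range (Nat.sqrt n + 1)).filter Nat.Prime, g p := by
  rw [← tsum_primes]
  refine tsum_congr fun p => ?_
  simp only [Nat.le_sqrt']

/-- the higher terms -/
noncomputable def T3 (lam : ℕ → ℝ) (x : Nat.Primes × ℕ) : ℝ := tt lam (x.1, x.2 + 2)

lemma LF.T3_sum (H : LF lam th F) : Summable (T3 lam) := by
  have hth := H.th1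
  have hρ := H.rho_lt
  have hρ0 : (0 : ℝ) ≤ (2 : ℝ) ^ (-(1 / 2 - th)) := by positivity
  have h1 := H.sum_w (show 0 < 1 / 2 - th by linarith)
  have h2 : Summable fun j : ℕ => ((2 : ℝ) ^ (-(1 / 2 - th))) ^ j :=
    summable_geometric_of_lt_one hρ0 hρ
  have h3 : Summable fun x : Nat.Primes × ℕ =>
      2 * (((lam x.1 ^ 2 + 3) * ((x.1 : ℕ) : ℝ) ^ (-(1 + (1 / 2 - th)))) *
        ((2 : ℝ) ^ (-(1 / 2 - th))) ^ x.2) :=
    (h1.mul_of_nonneg h2 (fun p => mul_nonneg (by positivity) (Real.rpow_nonneg (p0 p).le _))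
      fun k => by positivity).mul_left 2
  refine Summable.of_norm_bounded h3 fun x => ?_
  obtain ⟨p, j⟩ := x
  unfold T3 tt
  simp only
  have hp := p0 p
  set y : ℝ := ((p : ℕ) : ℝ) ^ th with hy
  have hy0 : 0 ≤ y := Real.rpow_nonneg hp.le _
  have hT := Tp_pos p
  have e2 := (H.ps_le2 p).2 (j + 1)
  have e4 : (1 : ℝ) ≤ ((j + 2 + 1 : ℕ) : ℝ) := by
    push_cast
    have : (0 : ℝ) ≤ j := Nat.cast_nonneg _
    linarith
  rw [Real.norm_eq_abs, abs_mul, abs_div, Nat.abs_cast, abs_of_nonneg (pow_nonneg hT.le _)]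
  calc |ps (lam p) 1 (j + 2 + 1)| / ((j + 2 + 1 : ℕ) : ℝ) * Tp p ^ (j + 2 + 1) ≤
        (2 * (lam p ^ 2 + 3) * y ^ (j + 1)) * Tp p ^ (j + 2 + 1) := by
        refine mul_le_mul_of_nonneg_right ?_ (by positivity)
        exact (div_le_self (abs_nonneg _) e4).trans e2
    _ = 2 * (lam p ^ 2 + 3) * Tp p ^ 2 * (y * Tp p) ^ (j + 1) := by ring
    _ ≤ 2 * (lam p ^ 2 + 3) * Tp p ^ 2 * (((p : ℕ) : ℝ) ^ (-(1 / 2 - th)) *
            ((2 : ℝ) ^ (-(1 / 2 - th))) ^ j) := by
        refine mul_le_mul_of_nonneg_left ?_ (by positivity)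
        exact H.decay p j
    _ = _ := by
        rw [Tp_sq, neg_add, Real.rpow_add hp, Real.rpow_neg_one]
        ring

/-- the local factor -/
lemma LF.local_log (H : LF lam th F) (p : Nat.Primes) : 0 < 1 - lam p * Tp p + Tp p ^ 2 ∧
    HasSum (fun k : ℕ => tt lam (p, k)) (-Real.log (1 - lam p * Tp p + Tp p ^ 2)) := by
  obtain ⟨K, hK, hb⟩ := H.ps_le
  have hy : (1 : ℝ) ≤ ((p : ℕ) : ℝ) ^ th := Real.one_le_rpow (by linarith [pp p]) H.th0
  obtain ⟨h1, h2⟩ := local_real hy hK (hb p) (Tp_pos p) (H.yT_lt p)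
  exact ⟨h1, h2⟩

lemma LF.local_split (H : LF lam th F) (p : Nat.Primes) :
    -Real.log (1 - lam p * Tp p + Tp p ^ 2) =
      tt lam (p, 0) + (tt lam (p, 1) + ∑' k : ℕ, T3 lam (p, k)) := by
  obtain ⟨-, h⟩ := H.local_log p
  rw [← h.tsum_eq, h.summable.tsum_eq_zero_add]
  have h1 : Summable fun k : ℕ => tt lam (p, k + 1) :=
    (summable_nat_add_iff (f := fun k : ℕ => tt lam (p, k)) 1).2 h.summable
  rw [h1.tsum_eq_zero_add]
  rfl

/-- the cut-off sum is summable -/
lemma LF.cut_sum (H : LF lam th F) (n : ℕ) :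
    Summable fun x : Nat.Primes × ℕ => if (x.1 : ℕ) ^ (x.2 + 1) ≤ n then tt lam x else 0 := by
  refine Summable.of_norm_bounded (maj.mul_left ((n : ℝ) ^ 2)) fun x => ?_
  split_ifs with h
  · rw [Real.norm_eq_abs]
    refine (H.tt_le x).trans ?_
    have h1 : Real.exp (wt x) ≤ n := by
      rw [exp_wt]
      exact_mod_cast h
    have h2 : 1 ≤ (n : ℝ) ^ 2 * Real.exp (-(2 * wt x)) := by
      have e1 : Real.exp (-(2 * wt x)) = (Real.exp (wt x) ^ 2)⁻¹ := by
        rw [← Real.exp_nat_mul, ← Real.exp_neg]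
        congr 1
      rw [e1, ← div_eq_mul_inv, one_le_div (by positivity)]
      exact pow_le_pow_left₀ (Real.exp_pos _).le h1 2
    linarith
  · rw [norm_zero]
    positivity

lemma inj2 (i : ℕ) : Function.Injective fun x : Nat.Primes × ℕ => (x.1, x.2 + i) := by
  rintro ⟨p, a⟩ ⟨q, b⟩ h
  simp only [Prod.mk.injEq, add_left_inj] at h
  rw [h.1, h.2]

/-- the decomposition of the sum over the prime powers -/
lemma LF.Qn_split (H : LF lam th F) (n : ℕ) : Qn lam n =
    ∑ p ∈ (Finset.range (n + 1)).filter Nat.Prime, lam p * Tp p +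
    (∑ p ∈ (Finset.range (Nat.sqrt n + 1)).filter Nat.Prime, (lam p ^ 2 - 2) / (2 * p) +
      ∑' x : Nat.Primes × ℕ, if (x.1 : ℕ) ^ (x.2 + 3) ≤ n then T3 lam x else 0) := by
  have hs := H.cut_sum n
  set f : Nat.Primes × ℕ → ℝ := fun x => if (x.1 : ℕ) ^ (x.2 + 1) ≤ n then tt lam x else 0 with hf
  have hsp : ∀ p, Summable fun k : ℕ => f (p, k) := fun p => hs.prod_factor p
  have s0 : Summable fun p : Nat.Primes => f (p, 0) :=
    hs.comp_injective (i := fun p : Nat.Primes => (p, 0)) fun p q h => (Prod.mk.inj h).1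
  have s1 : Summable fun p : Nat.Primes => f (p, 1) :=
    hs.comp_injective (i := fun p : Nat.Primes => (p, 1)) fun p q h => (Prod.mk.inj h).1
  have s2 : Summable fun x : Nat.Primes × ℕ => f (x.1, x.2 + 2) := hs.comp_injective (inj2 2)
  have s3 : Summable fun p : Nat.Primes => ∑' k : ℕ, f (p, k + 2) := s2.prod
  have h1 : ∀ p, ∑' k : ℕ, f (p, k) = f (p, 0) + (f (p, 1) + ∑' k : ℕ, f (p, k + 2)) := by
    intro p
    rw [(hsp p).tsum_eq_zero_add]
    have h1 : Summable fun k : ℕ => f (p, k + 1) :=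
      (summable_nat_add_iff (f := fun k : ℕ => f (p, k)) 1).2 (hsp p)
    rw [h1.tsum_eq_zero_add]
  have h2 : Qn lam n = ∑' x, f x := rfl
  rw [h2, hs.tsum_prod]
  simp only [h1]
  rw [s0.tsum_add (s1.add s3), s1.tsum_add s3, ← s2.tsum_prod]
  congr 1
  · rw [← tsum_primes]
    refine tsum_congr fun p => ?_
    simp only [hf, zero_add, pow_one]
    refine if_congr Iff.rfl ?_ rfl
    simp [tt, ps]
  · congr 1
    rw [← tsum_primes_sq]
    refine tsum_congr fun p => ?_
    simp only [hf]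
    refine if_congr Iff.rfl ?_ rfl
    unfold tt
    simp only [ps]
    have e : Tp p ^ (1 + 1) = Tp p ^ 2 := rfl
    rw [e, Tp_sq]
    have hp := (p0 p).ne'
    push_cast
    field_simp

/-- the decomposition of the product -/
lemma LF.Lp_split (H : LF lam th F) (n : ℕ) : Lp lam n =
    ∑ p ∈ (Finset.range (n + 1)).filter Nat.Prime, lam p * Tp p +
    (∑ p ∈ (Finset.range (n + 1)).filter Nat.Prime, (lam p ^ 2 - 2) / (2 * p) +
      ∑' x : Nat.Primes × ℕ, if (x.1 : ℕ) ≤ n then T3 lam x else 0) := by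
  have hs : Summable fun x : Nat.Primes × ℕ => if (x.1 : ℕ) ≤ n then T3 lam x else 0 := by
    refine Summable.of_norm_bounded H.T3_sum.norm fun x => ?_
    split_ifs
    · exact le_rfl
    · rw [norm_zero]
      exact norm_nonneg _
  set R : ℕ → ℝ := fun p => if h : p.Prime then ∑' k : ℕ, T3 lam (⟨p, h⟩, k) else 0 with hR
  have h1 : ∑' x : Nat.Primes × ℕ, (if (x.1 : ℕ) ≤ n then T3 lam x else 0) =
      ∑ p ∈ (Finset.range (n + 1)).filter Nat.Prime, R p := by
    rw [hs.tsum_prod, ← tsum_primes]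
    refine tsum_congr fun p => ?_
    simp only
    split_ifs with h
    · rw [hR]
      simp only
      rw [dif_pos p.2]
      rfl
    · exact tsum_zero
  rw [h1, ← Finset.sum_add_distrib, ← Finset.sum_add_distrib]
  unfold Lp
  refine Finset.sum_congr rfl fun p hp => ?_
  have hp' := (Finset.mem_filter.1 hp).2
  have h2 := H.local_split ⟨p, hp'⟩
  simp only at h2
  rw [h2]
  congr 1
  · simp [tt, ps]
  · congr 1
    · unfold tt
      simp only [ps]
      have e : Tp p ^ (1 + 1) = Tp p ^ 2 := rfl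
      have h3 := Tp_sq ⟨p, hp'⟩
      simp only at h3
      rw [e, h3]
      have hp0 : (p : ℝ) ≠ 0 := by exact_mod_cast hp'.ne_zero
      push_cast
      field_simp
    · rw [hR]
      simp only
      rw [dif_pos hp']

/-- the reciprocal half sum -/
lemma half_one : Tendsto (fun n : ℕ => ∑ p ∈ (Finset.Ioc (Nat.sqrt n) n).filter Nat.Prime,
    (1 : ℝ) / p) atTop (𝓝 (Real.log 2)) := by
  have h1 := Pool.Agent.W263.BSD.prime_half.comp
    (Real.tendsto_log_atTop.comp tendsto_natCast_atTop_atTop)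
  refine h1.congr' ?_
  filter_upwards [eventually_ge_atTop 1] with n hn
  have hn0 : (0 : ℝ) < n := by exact_mod_cast hn
  simp only [Function.comp_apply]
  have hsq : Real.exp (Real.log n / 2) = √n := by
    rw [Real.sqrt_eq_rpow, Real.rpow_def_of_pos hn0]
    congr 1
    ring
  rw [Real.exp_log hn0, hsq, Nat.floor_natCast, Real.nat_floor_real_sqrt_eq_nat_sqrt]

/-- **The comparison.** -/
theorem LF.diff (H : LF lam th F) (hsel : W388.SelE (fun n => (W388.cS 1 lam n : ℂ))) :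
    Tendsto (fun n : ℕ => Lp lam n - Qn lam n) atTop (𝓝 (-(Real.log 2 / 2))) := by
  have h1 : Tendsto (fun n : ℕ => ∑' x : Nat.Primes × ℕ, (if (x.1 : ℕ) ≤ n then T3 lam x else 0))
      atTop (𝓝 (∑' x, T3 lam x)) := by
    refine tendsto_tsum_of_dominated_convergence H.T3_sum.norm (fun x => ?_)
      (Eventually.of_forall fun n x => ?_)
    · refine tendsto_const_nhds.congr' ?_
      filter_upwards [eventually_ge_atTop (x.1 : ℕ)] with n hn
      rw [if_pos hn]
    · split_ifs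
      · exact le_rfl
      · rw [norm_zero]
        exact norm_nonneg _
  have h2 : Tendsto (fun n : ℕ => ∑' x : Nat.Primes × ℕ,
      (if (x.1 : ℕ) ^ (x.2 + 3) ≤ n then T3 lam x else 0)) atTop (𝓝 (∑' x, T3 lam x)) := by
    refine tendsto_tsum_of_dominated_convergence H.T3_sum.norm (fun x => ?_)
      (Eventually.of_forall fun n x => ?_)
    · refine tendsto_const_nhds.congr' ?_
      filter_upwards [eventually_ge_atTop ((x.1 : ℕ) ^ (x.2 + 3))] with n hn
      rw [if_pos hn]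
    · split_ifs
      · exact le_rfl
      · rw [norm_zero]
        exact norm_nonneg _
  have h3 := (((H.half hsel).mul_const (1 / 2)).sub half_one).add (h1.sub h2)
  have e : Real.log 2 * (1 / 2) - Real.log 2 + (∑' x, T3 lam x - ∑' x, T3 lam x) =
      -(Real.log 2 / 2) := by ring
  rw [e] at h3
  refine h3.congr fun n => ?_
  rw [H.Lp_split, H.Qn_split]
  have e1 : ∑ p ∈ (Finset.range (n + 1)).filter Nat.Prime, (lam p ^ 2 - 2) / (2 * (p : ℝ)) -
      ∑ p ∈ (Finset.range (Nat.sqrt n + 1)).filter Nat.Prime, (lam p ^ 2 - 2) / (2 * (p : ℝ)) =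
      (∑ p ∈ (Finset.Ioc (Nat.sqrt n) n).filter Nat.Prime, lam p ^ 2 / p) * (1 / 2) -
        ∑ p ∈ (Finset.Ioc (Nat.sqrt n) n).filter Nat.Prime, (1 : ℝ) / p := by
    have e2 : Finset.Ioc (Nat.sqrt n) n = Finset.Ico (Nat.sqrt n + 1) (n + 1) := by
      ext k
      simp only [Finset.mem_Ioc, Finset.mem_Ico]
      omega
    have e3 : (∑ p ∈ (Finset.Ioc (Nat.sqrt n) n).filter Nat.Prime, lam p ^ 2 / (p : ℝ)) * (1 / 2) -
        ∑ p ∈ (Finset.Ioc (Nat.sqrt n) n).filter Nat.Prime, (1 : ℝ) / p =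
        ∑ p ∈ (Finset.Ioc (Nat.sqrt n) n).filter Nat.Prime, (lam p ^ 2 - 2) / (2 * (p : ℝ)) := by
      rw [Finset.sum_mul, ← Finset.sum_sub_distrib]
      refine Finset.sum_congr rfl fun p hp => ?_
      have hp0 : (p : ℝ) ≠ 0 := by exact_mod_cast (Finset.mem_filter.1 hp).2.ne_zero
      field_simp
    rw [e3, e2, Finset.sum_filter, Finset.sum_filter, Finset.sum_filter,
      Finset.sum_Ico_eq_sub _ (by have := Nat.sqrt_le_self n; omega)]
  linarith

end Pool.Agent.E8helper66.ND
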